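import Pool.Agent.Lib_helper7.TE.Defs

/-!
Block TE8: the logarithm of a diagonal matrix.
-/

set_option autoImplicit false

namespace Pool.Agent.TE

open Pool.Agent.TBL Filter Topology

section te8

variable {k : Type*} [NontriviallyNormedField k] [IsUltrametricDist k] [CompleteSpace k]

theorem te8_norm {p : ℕ} (hp : ‖(p : k)‖ < 1) {a : k} (ha : ‖a - 1‖ ≤ ‖(p : k)‖ ^ 2) :
    ‖a‖ = 1 := by
  have h1 : ‖a - 1‖ < 1 := lt_of_le_of_lt ha (pow_lt_one₀ (norm_nonneg _) hp two_ne_zero)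
  have h2 : ‖a‖ ≤ 1 := by
    have : a = (a - 1) + 1 := by ring
    rw [this]
    refine (IsUltrametricDist.norm_add_le_max _ _).trans (max_le h1.le ?_)
    rw [norm_one]
  apply le_antisymm h2
  by_contra h3
  push Not at h3
  have h4 : (1 : k) = a + -(a - 1) := by ring
  have h5 : ‖(1 : k)‖ < 1 := by
    rw [h4]
    refine lt_of_le_of_lt (IsUltrametricDist.norm_add_le_max _ _) (max_lt h3 ?_)
    rw [norm_neg]
    exact h1
  rw [norm_one] at h5
  exact lt_irrefl _ h5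

theorem te8_mul {p : ℕ} (hp : ‖(p : k)‖ < 1) {a b : k} (ha : ‖a - 1‖ ≤ ‖(p : k)‖ ^ 2)
    (hb : ‖b - 1‖ ≤ ‖(p : k)‖ ^ 2) : ‖a * b - 1‖ ≤ ‖(p : k)‖ ^ 2 := by
  have h1 : a * b - 1 = (a - 1) * b + (b - 1) := by ring
  rw [h1]
  refine (IsUltrametricDist.norm_add_le_max _ _).trans (max_le ?_ hb)
  rw [norm_mul, te8_norm hp hb, mul_one]
  exact ha

theorem te8_add {p : ℕ} (hp0 : (p : k) ≠ 0) (hp : ‖(p : k)‖ < 1) {a b : k}
    (ha : ‖a - 1‖ ≤ ‖(p : k)‖ ^ 2) (hb : ‖b - 1‖ ≤ ‖(p : k)‖ ^ 2) :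
    lg k p (a * b) = lg k p a + lg k p b := by
  have h1 := tendsto_dq (k := k) hp0 hp (te8_mul hp ha hb)
  have h2 := tendsto_dq (k := k) hp0 hp ha
  have h3 := tendsto_dq (k := k) hp0 hp hb
  have h4 := tendsto_pow_pow (k := k) hp hb
  have h5 := (h2.mul h4).add h3
  rw [mul_one] at h5
  refine tendsto_nhds_unique h1 (h5.congr fun m => ?_)
  simp only [dq, smul_eq_mul, mul_pow]
  ring

theorem te8_inj {p : ℕ} (hp0 : (p : k) ≠ 0) (hp : ‖(p : k)‖ < 1) {a b : k}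
    (ha : ‖a - 1‖ ≤ ‖(p : k)‖ ^ 2) (hb : ‖b - 1‖ ≤ ‖(p : k)‖ ^ 2)
    (h : lg k p a = lg k p b) : a = b := by
  have hb1 := te8_norm hp hb
  have hb0 : b ≠ 0 := by
    intro h0
    rw [h0, norm_zero] at hb1
    exact zero_ne_one hb1
  have hc : ‖a * b⁻¹ - 1‖ ≤ ‖(p : k)‖ ^ 2 := by
    have h1 : a * b⁻¹ - 1 = ((a - 1) + -(b - 1)) * b⁻¹ := by
      field_simp
      ring
    rw [h1, norm_mul, norm_inv, hb1, inv_one, mul_one]
    refine (IsUltrametricDist.norm_add_le_max _ _).trans (max_le ha ?_)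
    rw [norm_neg]
    exact hb
  have h1 := te8_add hp0 hp hc hb
  rw [inv_mul_cancel_right₀ hb0, h] at h1
  have h2 : lg k p (a * b⁻¹) = 0 := by
    have h3 : lg k p (a * b⁻¹) + lg k p b = 0 + lg k p b := by rw [← h1, zero_add]
    exact add_right_cancel h3
  have h4 := eq_one_of_lg hp0 hp hc h2
  field_simp at h4
  exact h4

/-- TE8: the logarithm of a diagonal matrix; additivity. -/
theorem te8_pr {n : Type*} [Fintype n] [DecidableEq n] {p : ℕ} (hp0 : (p : k) ≠ 0)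
    (hp : ‖(p : k)‖ < 1) (γ : n → k) (hγ : ∀ i, ‖γ i - 1‖ ≤ ‖(p : k)‖ ^ 2)
    (hγ' : PairDistinct γ) :
    ∃ l : n → k, SumDistinct l ∧
      Tendsto (fun m : ℕ => ((p : k) ^ m)⁻¹ • (Matrix.diagonal γ ^ p ^ m - 1)) atTop
        (𝓝 (Matrix.diagonal l)) := by
  refine ⟨fun i => lg k p (γ i), ?_, ?_⟩
  · intro x y x' y' h
    apply hγ'
    apply te8_inj hp0 hp (te8_mul hp (hγ x) (hγ y)) (te8_mul hp (hγ x') (hγ y'))
    rw [te8_add hp0 hp (hγ x) (hγ y), te8_add hp0 hp (hγ x') (hγ y')]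
    exact h
  · have h1 : ∀ m : ℕ, ((p : k) ^ m)⁻¹ • (Matrix.diagonal γ ^ p ^ m - 1) =
        Matrix.diagonal fun i => dq k p (γ i) m := by
      intro m
      rw [Matrix.diagonal_pow, ← Matrix.diagonal_one, Matrix.diagonal_sub, ← Matrix.diagonal_smul]
      rfl
    simp only [h1]
    have h2 : Continuous fun d : n → k => Matrix.diagonal d := continuous_id.matrix_diagonal
    refine (h2.tendsto _).comp ?_
    rw [tendsto_pi_nhds]
    intro i
    exact tendsto_dq (k := k) hp0 hp (hγ i)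

end te8

end Pool.Agent.TE
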