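import Pool.Agent.Lib_helper7.TE.T9

/-!
# TE10: from root lines and irreducibility to everything

Cites `te9_pr` of `Wanted`.
-/

set_option autoImplicit false

namespace Pool.Agent.TE

open Pool.Agent.TBL

/-- The `a`-th diagonal block. -/
def te10_blk {k : Type*} {R : Type*} {N : R → ℕ} (a : R)
    (Y : Matrix (Σ a, Fin (N a)) (Σ a, Fin (N a)) k) : Matrix (Fin (N a)) (Fin (N a)) k :=
  Matrix.of fun i j => Y ⟨a, i⟩ ⟨a, j⟩

theorem te10_blk_apply {k : Type*} {R : Type*} {N : R → ℕ} (a : R)
    (Y : Matrix (Σ a, Fin (N a)) (Σ a, Fin (N a)) k) (i j : Fin (N a)) :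
    te10_blk a Y i j = Y ⟨a, i⟩ ⟨a, j⟩ := rfl

/-- A diagonal matrix with distinct entries: invariant subspaces are coordinate subspaces. -/
theorem te10_coord {k : Type*} [Field k] {n : ℕ} (l : Fin n → k) (hl : Function.Injective l)
    (W : Submodule k (Fin n → k)) (hW : ∀ w ∈ W, (fun i => l i * w i) ∈ W)
    {w : Fin n → k} (hw : w ∈ W) {i : Fin n} (hi : w i ≠ 0) : Pi.single i (1 : k) ∈ W := by
  classical
  have key : ∀ T : Finset (Fin n), i ∉ T →
      (fun j => (∏ u ∈ T, (l j - l u)) * w j) ∈ W := by
    intro T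
    induction T using Finset.induction_on with
    | empty =>
      intro _
      simpa using hw
    | insert u T hu ih =>
      intro hi'
      have h1 := ih fun h => hi' (Finset.mem_insert_of_mem h)
      have h2 := W.sub_mem (hW _ h1) (W.smul_mem (l u) h1)
      have h3 : (fun j => (∏ v ∈ insert u T, (l j - l v)) * w j) =
          (fun j => l j * ((∏ v ∈ T, (l j - l v)) * w j)) -
            l u • (fun j => (∏ v ∈ T, (l j - l v)) * w j) := by
        funext j
        rw [Finset.prod_insert hu]
        simp only [Pi.sub_apply, Pi.smul_apply, smul_eq_mul]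
        ring
      rw [h3]
      exact h2
  have h := key (Finset.univ.erase i) (Finset.notMem_erase i _)
  have hc : (∏ u ∈ Finset.univ.erase i, (l i - l u)) ≠ 0 := by
    refine Finset.prod_ne_zero_iff.mpr fun u hu => ?_
    rw [sub_ne_zero]
    exact fun h => Finset.ne_of_mem_erase hu (hl h).symm
  have h4 : Pi.single i (1 : k) = ((∏ u ∈ Finset.univ.erase i, (l i - l u)) * w i)⁻¹ •
      (fun j => (∏ u ∈ Finset.univ.erase i, (l j - l u)) * w j) := by
    funext j
    by_cases hj : j = i
    · subst hj
      simp only [Pi.single_eq_same, Pi.smul_apply, smul_eq_mul]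
      rw [inv_mul_cancel₀ (mul_ne_zero hc hi)]
    · rw [Pi.single_eq_of_ne hj]
      simp only [Pi.smul_apply, smul_eq_mul]
      have h5 : (∏ u ∈ Finset.univ.erase i, (l j - l u)) = 0 :=
        Finset.prod_eq_zero (Finset.mem_erase.mpr ⟨hj, Finset.mem_univ j⟩) (sub_self (l j))
      rw [h5, zero_mul, mul_zero]
  rw [h4]
  exact W.smul_mem _ h

theorem te10_blk_conj {k : Type*} [Field k] {R : Type*} [Fintype R] [DecidableEq R]
    {N : R → ℕ} {G : Type*} [Group G] (A : (a : R) → G →* Matrix (Fin (N a)) (Fin (N a)) k)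
    (a : R) (g : G) (Y : Matrix (Σ a, Fin (N a)) (Σ a, Fin (N a)) k) :
    te10_blk a (joint A g * Y * joint A g⁻¹) = A a g * te10_blk a Y * A a g⁻¹ := by
  have hj : ∀ h : G, joint A h = Matrix.blockDiagonal' fun a => A a h := fun _ => rfl
  have h1 : ∀ Z : Matrix (Σ a, Fin (N a)) (Σ a, Fin (N a)) k, ∀ h : G,
      te10_blk a (joint A h * Z) = A a h * te10_blk a Z := by
    intro Z h
    ext i j
    rw [te10_blk_apply, Matrix.mul_apply, Matrix.mul_apply, Fintype.sum_sigma,
      Finset.sum_eq_single a]
    · refine Finset.sum_congr rfl fun u _ => ?_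
      rw [hj, Matrix.blockDiagonal'_apply_eq, te10_blk_apply]
    · intro b _ hb
      refine Finset.sum_eq_zero fun u _ => ?_
      rw [hj, Matrix.blockDiagonal'_apply_ne _ _ _ (Ne.symm hb), zero_mul]
    · intro h
      exact absurd (Finset.mem_univ _) h
  have h2 : ∀ Z : Matrix (Σ a, Fin (N a)) (Σ a, Fin (N a)) k, ∀ h : G,
      te10_blk a (Z * joint A h) = te10_blk a Z * A a h := by
    intro Z h
    ext i j
    rw [te10_blk_apply, Matrix.mul_apply, Matrix.mul_apply, Fintype.sum_sigma,
      Finset.sum_eq_single a]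
    · refine Finset.sum_congr rfl fun u _ => ?_
      rw [hj, Matrix.blockDiagonal'_apply_eq, te10_blk_apply]
    · intro b _ hb
      refine Finset.sum_eq_zero fun u _ => ?_
      rw [hj, Matrix.blockDiagonal'_apply_ne _ _ _ hb, mul_zero]
    · intro h
      exact absurd (Finset.mem_univ _) h
  rw [h2, h1]

theorem te10_pr {k : Type*} [Field k] [CharZero k] {R : Type*} [Fintype R] [DecidableEq R]
    {N : R → ℕ} {G : Type*} [Group G] (A : (a : R) → G →* Matrix (Fin (N a)) (Fin (N a)) k)
    (l : (Σ a, Fin (N a)) → k) (hl : SumDistinct l)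
    (S : Submodule k (Matrix (Σ a, Fin (N a)) (Σ a, Fin (N a)) k))
    (hlS : Matrix.diagonal l ∈ S)
    (hbr : ∀ X ∈ S, ∀ Y ∈ S, X * Y - Y * X ∈ S)
    (hconj : ∀ g, ∀ Y ∈ S, joint A g * Y * joint A g⁻¹ ∈ S)
    (hirr : ∀ a, ∀ W : Submodule k (Fin (N a) → k), (stab (A a) W).FiniteIndex →
      W = ⊥ ∨ W = ⊤)
    (x : (a : R) → Matrix (Fin (N a)) (Fin (N a)) k) (hx : ∀ a, (x a).trace = 0) :
    Matrix.blockDiagonal' x ∈ S := by
  classical
  have hroot : ∀ Y ∈ S, ∀ u v : Σ a, Fin (N a), u ≠ v → Y u v ≠ 0 →
      Matrix.single u v (1 : k) ∈ S := fun Y hY u v huv h0 =>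
    te9_pr l hl S (fun Z hZ => hbr _ hlS _ hZ) hY huv h0
  have htrans : ∀ u v w : Σ a, Fin (N a), u ≠ w → Matrix.single u v (1 : k) ∈ S →
      Matrix.single v w (1 : k) ∈ S → Matrix.single u w (1 : k) ∈ S := by
    intro u v w huw h1 h2
    have h := hbr _ h1 _ h2
    rw [Matrix.single_mul_single_same, Matrix.single_mul_single_of_ne (h := Ne.symm huw),
      sub_zero, mul_one] at h
    exact h
  have hlinj : Function.Injective l := by
    intro u v huv
    rcases hl u u v u (by rw [huv]) with h | h
    · exact h.1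
    · exact h.2.symm ▸ rfl
  -- the set of invariant subspaces of a block is finite
  let Inv : (a : R) → Set (Submodule k (Fin (N a) → k)) := fun a =>
    {W | ∀ Y ∈ S, ∀ w ∈ W, (te10_blk a Y).mulVec w ∈ W}
  have hdiag : ∀ a, ∀ W ∈ Inv a, ∀ w ∈ W, (fun i => l ⟨a, i⟩ * w i) ∈ W := by
    intro a W hW w hw
    have h := hW _ hlS w hw
    have h2 : (te10_blk a (Matrix.diagonal l)).mulVec w = fun i => l ⟨a, i⟩ * w i := by
      funext i
      rw [Matrix.mulVec, dotProduct, Finset.sum_eq_single i]
      · rw [te10_blk_apply, Matrix.diagonal_apply_eq]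
      · intro j _ hj
        rw [te10_blk_apply, Matrix.diagonal_apply_ne, zero_mul]
        intro h
        exact hj (by simpa using h.symm)
      · intro h
        exact absurd (Finset.mem_univ _) h
    rw [← h2]
    exact h
  have hcoord : ∀ a, ∀ W ∈ Inv a, ∀ w : Fin (N a) → k,
      w ∈ W ↔ ∀ i, w i ≠ 0 → Pi.single i (1 : k) ∈ W := by
    intro a W hW w
    constructor
    · intro hw i hi
      exact te10_coord (fun i => l ⟨a, i⟩)
        (fun i j hij => by simpa using hlinj hij) W (hdiag a W hW) hw hi
    · intro h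
      have h1 : w = ∑ i, w i • Pi.single i (1 : k) := by
        funext j
        rw [Finset.sum_apply, Finset.sum_eq_single j]
        · simp
        · intro i _ hi
          simp [Pi.single_eq_of_ne (Ne.symm hi)]
        · intro h
          exact absurd (Finset.mem_univ _) h
      rw [h1]
      refine W.sum_mem fun i _ => ?_
      by_cases hi : w i = 0
      · rw [hi, zero_smul]
        exact W.zero_mem
      · exact W.smul_mem _ (h i hi)
  have hfin : ∀ a, (Inv a).Finite := by
    intro a
    have hinj : Set.InjOn (fun W : Submodule k (Fin (N a) → k) =>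
        {i : Fin (N a) | Pi.single i (1 : k) ∈ W}) (Inv a) := by
      intro W hW W' hW' h
      ext w
      rw [hcoord a W hW w, hcoord a W' hW' w]
      refine forall_congr' fun i => imp_congr_right fun _ => ?_
      exact Set.ext_iff.mp h i
    exact Set.Finite.of_finite_image (Set.toFinite _) hinj
  have hact : ∀ a g, ∀ W ∈ Inv a, W.map (Matrix.toLin' (A a g)) ∈ Inv a := by
    intro a g W hW Y hY w hw
    obtain ⟨v, hv, rfl⟩ := Submodule.mem_map.mp hw
    have h1 := hW _ (hconj g⁻¹ Y hY) v hv
    rw [te10_blk_conj, inv_inv] at h1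
    refine Submodule.mem_map.mpr ⟨_, h1, ?_⟩
    rw [Matrix.toLin'_apply, Matrix.toLin'_apply, Matrix.mulVec_mulVec,
      Matrix.mulVec_mulVec, ← mul_assoc, ← mul_assoc, ← map_mul, mul_inv_cancel, map_one,
      one_mul]
  have hstab : ∀ a, ∀ W ∈ Inv a, (stab (A a) W).FiniteIndex := by
    intro a W hW
    have : Finite (Inv a) := hfin a
    have hf : Function.Injective (fun q : G ⧸ stab (A a) W =>
        (⟨W.map (Matrix.toLin' (A a q.out)), hact a _ W hW⟩ : Inv a)) := by
      intro q q' h
      have h' : W.map (Matrix.toLin' (A a q.out)) = W.map (Matrix.toLin' (A a q'.out)) :=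
        congrArg Subtype.val h
      rw [← q.out_eq', ← q'.out_eq']
      refine QuotientGroup.eq.mpr ?_
      have hmem : ∀ g g' : G, W.map (Matrix.toLin' (A a g)) = W.map (Matrix.toLin' (A a g')) →
          ∀ w ∈ W, (A a (g⁻¹ * g')).mulVec w ∈ W := by
        intro g g' hgg w hw
        have h1 : (A a g').mulVec w ∈ W.map (Matrix.toLin' (A a g)) := by
          rw [hgg]
          exact Submodule.mem_map.mpr ⟨w, hw, Matrix.toLin'_apply _ _⟩
        obtain ⟨v, hv, hvw⟩ := Submodule.mem_map.mp h1
        rw [Matrix.toLin'_apply] at hvw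
        rw [map_mul, ← Matrix.mulVec_mulVec, ← hvw, Matrix.mulVec_mulVec, ← map_mul,
          inv_mul_cancel, map_one, Matrix.one_mulVec]
        exact hv
      intro w
      constructor
      · intro hw
        have h2 := hmem _ _ h'.symm _ hw
        rw [Matrix.mulVec_mulVec, ← map_mul] at h2
        have h3 : (q'.out⁻¹ * q.out * (q.out⁻¹ * q'.out) : G) = 1 := by group
        rw [h3, map_one, Matrix.one_mulVec] at h2
        exact h2
      · exact hmem _ _ h' w
    have : Finite (G ⧸ stab (A a) W) := Finite.of_injective _ hf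
    exact Subgroup.finiteIndex_of_finite_quotient
  -- all root lines are there
  have hall : ∀ a, ∀ i j : Fin (N a), i ≠ j →
      Matrix.single (⟨a, i⟩ : Σ a, Fin (N a)) ⟨a, j⟩ (1 : k) ∈ S := by
    intro a i j hij
    let W : Submodule k (Fin (N a) → k) :=
      { carrier := {v | ∀ i, v i ≠ 0 → i = j ∨
          Matrix.single (⟨a, i⟩ : Σ a, Fin (N a)) ⟨a, j⟩ (1 : k) ∈ S}
        add_mem' := by
          intro v w hv hw i hi
          by_cases h : v i = 0
          · refine hw i fun h' => hi ?_
            rw [Pi.add_apply, h, h', add_zero]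
          · exact hv i h
        zero_mem' := by
          intro i hi
          exact absurd rfl hi
        smul_mem' := by
          intro c v hv i hi
          refine hv i fun h => hi ?_
          rw [Pi.smul_apply, h, smul_zero] }
    have hW : W ∈ Inv a := by
      intro Y hY v hv u hu
      rw [Matrix.mulVec, dotProduct] at hu
      obtain ⟨t, _, ht⟩ := Finset.exists_ne_zero_of_sum_ne_zero hu
      have h1 : Y ⟨a, u⟩ ⟨a, t⟩ ≠ 0 := left_ne_zero_of_mul ht
      have h2 : v t ≠ 0 := right_ne_zero_of_mul ht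
      by_cases hut : u = t
      · subst hut
        exact hv u h2
      · have h3 := hroot Y hY ⟨a, u⟩ ⟨a, t⟩ (by
          intro h
          exact hut (by simpa using h)) h1
        by_cases huj : u = j
        · exact Or.inl huj
        · right
          rcases hv t h2 with h4 | h4
          · rw [← h4]
            exact h3
          · exact htrans _ _ _ (by
              intro h
              exact huj (by simpa using h)) h3 h4
    rcases hirr a W (hstab a W hW) with h | h
    · exfalso
      have h1 : Pi.single j (1 : k) ∈ W := by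
        intro u hu
        left
        by_contra huj
        exact hu (Pi.single_eq_of_ne huj _)
      rw [h, Submodule.mem_bot] at h1
      have := congrFun h1 j
      rw [Pi.single_eq_same, Pi.zero_apply] at this
      exact one_ne_zero this
    · have h1 : Pi.single i (1 : k) ∈ W := by
        rw [h]
        exact Submodule.mem_top
      rcases h1 i (by rw [Pi.single_eq_same]; exact one_ne_zero) with h2 | h2
      · exact absurd h2 hij
      · exact h2
  -- differences of diagonal matrix units
  have hdd : ∀ a, ∀ i j : Fin (N a),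
      Matrix.single (⟨a, i⟩ : Σ a, Fin (N a)) (⟨a, i⟩ : Σ a, Fin (N a)) (1 : k) -
        Matrix.single (⟨a, j⟩ : Σ a, Fin (N a)) ⟨a, j⟩ (1 : k) ∈ S := by
    intro a i j
    by_cases hij : i = j
    · subst hij
      rw [sub_self]
      exact S.zero_mem
    · have h := hbr _ (hall a i j hij) _ (hall a j i (Ne.symm hij))
      rw [Matrix.single_mul_single_same, Matrix.single_mul_single_same, mul_one] at h
      exact h
  set X := Matrix.blockDiagonal' x with hX
  have hsplit : X = (X - Matrix.diagonal fun u => X u u) + Matrix.diagonal fun u => X u u := by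
    rw [sub_add_cancel]
  rw [hsplit]
  refine S.add_mem ?_ ?_
  · rw [Matrix.matrix_eq_sum_single (X - Matrix.diagonal fun u => X u u)]
    refine S.sum_mem fun u _ => S.sum_mem fun v _ => ?_
    by_cases huv : u = v
    · subst huv
      rw [Matrix.sub_apply, Matrix.diagonal_apply_eq, sub_self, Matrix.single_zero]
      exact S.zero_mem
    · rw [Matrix.sub_apply, Matrix.diagonal_apply_ne _ huv, sub_zero]
      obtain ⟨a, i⟩ := u
      obtain ⟨b, j⟩ := v
      by_cases hab : a = b
      · subst hab
        have hij : i ≠ j := fun h => huv (by rw [h])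
        have h1 : Matrix.single (⟨a, i⟩ : Σ a, Fin (N a)) (⟨a, j⟩ : Σ a, Fin (N a)) (X ⟨a, i⟩ ⟨a, j⟩) =
            X ⟨a, i⟩ ⟨a, j⟩ • Matrix.single (⟨a, i⟩ : Σ a, Fin (N a)) (⟨a, j⟩ : Σ a, Fin (N a)) (1 : k) := by
          rw [Matrix.smul_single, smul_eq_mul, mul_one]
        rw [h1]
        exact S.smul_mem _ (hall a i j hij)
      · rw [hX, Matrix.blockDiagonal'_apply_ne _ _ _ hab, Matrix.single_zero]
        exact S.zero_mem
  · have h1 : (Matrix.diagonal fun u => X u u) =
        ∑ a : R, ∑ i : Fin (N a), (X ⟨a, i⟩ ⟨a, i⟩) •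
          Matrix.single (⟨a, i⟩ : Σ a, Fin (N a)) (⟨a, i⟩ : Σ a, Fin (N a)) (1 : k) := by
      rw [← Fintype.sum_sigma (f := fun u : Σ a, Fin (N a) => X u u • Matrix.single u u (1 : k))]
      ext u v
      rw [Matrix.sum_apply]
      by_cases huv : u = v
      · subst huv
        rw [Matrix.diagonal_apply_eq, Finset.sum_eq_single u]
        · simp
        · intro w _ hw
          rw [Matrix.smul_apply, Matrix.single_apply_of_ne, smul_zero]
          rintro ⟨h2, -⟩
          exact hw h2
        · intro h
          exact absurd (Finset.mem_univ _) h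
      · rw [Matrix.diagonal_apply_ne _ huv]
        symm
        refine Finset.sum_eq_zero fun w _ => ?_
        rw [Matrix.smul_apply, Matrix.single_apply_of_ne, smul_zero]
        rintro ⟨h2, h3⟩
        exact huv (h2.symm.trans h3)
    rw [h1]
    refine S.sum_mem fun a _ => ?_
    rcases Nat.eq_zero_or_pos (N a) with h0 | h0
    · have : IsEmpty (Fin (N a)) := by
        rw [h0]
        exact Fin.isEmpty
      rw [Finset.univ_eq_empty, Finset.sum_empty]
      exact S.zero_mem
    · let i0 : Fin (N a) := ⟨0, h0⟩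
      have h2 : (∑ i : Fin (N a), X ⟨a, i⟩ ⟨a, i⟩) = 0 := by
        have h3 := hx a
        rw [Matrix.trace] at h3
        rw [← h3]
        refine Finset.sum_congr rfl fun i _ => ?_
        rw [hX, Matrix.blockDiagonal'_apply_eq, Matrix.diag_apply]
      have h3 : (∑ i : Fin (N a), (X ⟨a, i⟩ ⟨a, i⟩) •
          Matrix.single (⟨a, i⟩ : Σ a, Fin (N a)) (⟨a, i⟩ : Σ a, Fin (N a)) (1 : k)) =
          ∑ i : Fin (N a), (X ⟨a, i⟩ ⟨a, i⟩) •
          (Matrix.single (⟨a, i⟩ : Σ a, Fin (N a)) (⟨a, i⟩ : Σ a, Fin (N a)) (1 : k) -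
            Matrix.single (⟨a, i0⟩ : Σ a, Fin (N a)) (⟨a, i0⟩ : Σ a, Fin (N a)) (1 : k)) := by
        simp_rw [smul_sub]
        rw [Finset.sum_sub_distrib, ← Finset.sum_smul, h2, zero_smul, sub_zero]
      rw [h3]
      exact S.sum_mem fun i _ => S.smul_mem _ (hdd a i i0)

end Pool.Agent.TE
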