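import Pool.Agent.Lib_helper7.TE.Defs

set_option autoImplicit false

namespace Pool.Agent.TE

open Pool.Agent.TBL Filter Topology

/-- the universal polynomial -/
noncomputable def te11_P (k : Type*) [Field k] (N m : ℕ) : MvPolynomial (Fin N) (Polynomial k) :=
  ∏ S ∈ (Finset.univ : Finset (Fin N)).powersetCard m,
    (MvPolynomial.C Polynomial.X - ∏ i ∈ S, MvPolynomial.X i)

theorem te11_symm (k : Type*) [Field k] (N m : ℕ) : (te11_P k N m).IsSymmetric := by
  classical
  intro e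
  unfold te11_P
  rw [map_prod]
  refine Finset.prod_nbij' (fun S => S.map e.toEmbedding) (fun S => S.map e.symm.toEmbedding)
    ?_ ?_ ?_ ?_ ?_
  · intro S hS
    rw [Finset.mem_powersetCard] at hS ⊢
    exact ⟨Finset.subset_univ _, by rw [Finset.card_map]; exact hS.2⟩
  · intro S hS
    rw [Finset.mem_powersetCard] at hS ⊢
    exact ⟨Finset.subset_univ _, by rw [Finset.card_map]; exact hS.2⟩
  · intro S _
    ext x
    simp
  · intro S _
    ext x
    simp
  · intro S _
    rw [map_sub, map_prod, MvPolynomial.rename_C, Finset.prod_map]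
    simp

theorem te11_coeff {k : Type*} [Field k] {N : ℕ} (α : Fin N → k) (i : Fin N) :
    (∏ i, (Polynomial.X - Polynomial.C (α i))).coeff (N - ((i : ℕ) + 1)) =
      (-1) ^ ((i : ℕ) + 1) * ∑ t ∈ (Finset.univ : Finset (Fin N)).powersetCard ((i : ℕ) + 1),
        ∏ j ∈ t, α j := by
  have hcard : Multiset.card ((Finset.univ : Finset (Fin N)).val.map α) = N := by simp
  have hi : (i : ℕ) + 1 ≤ N := i.2
  have h1 := Multiset.prod_X_sub_C_coeff ((Finset.univ : Finset (Fin N)).val.map α)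
    (k := N - ((i : ℕ) + 1)) (by rw [hcard]; omega)
  rw [hcard, Multiset.map_map, Finset.esymm_map_val] at h1
  have h2 : N - (N - ((i : ℕ) + 1)) = (i : ℕ) + 1 := by omega
  rw [h2] at h1
  rw [← h1]
  rfl

theorem te11_pr (k : Type*) [Field k] (N m : ℕ) :
    ∃ Φ : MvPolynomial ((Fin N ⊕ Unit) × (Fin N ⊕ Unit)) k,
      ∀ (M : Matrix (Fin N) (Fin N) k) (c : k) (α : Fin N → k),
        M.charpoly = ∏ i, (Polynomial.X - Polynomial.C (α i)) →
        ev (Matrix.fromBlocks M 0 0 (Matrix.of fun _ _ => c)) Φ =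
          ∏ S ∈ Finset.univ.powersetCard m, (c - ∏ i ∈ S, α i) := by
  classical
  obtain ⟨Q, hQ⟩ := MvPolynomial.esymmAlgHom_fin_surjective (R := Polynomial k) (le_refl N)
    ⟨te11_P k N m, te11_symm k N m⟩
  have hQ' : MvPolynomial.aeval
      (fun i : Fin N => MvPolynomial.esymm (Fin N) (Polynomial k) ((i : ℕ) + 1)) Q =
      te11_P k N m := by
    rw [← MvPolynomial.esymmAlgHom_apply, hQ]
  refine ⟨MvPolynomial.eval₂ (Polynomial.eval₂RingHom MvPolynomial.C
    (MvPolynomial.X (Sum.inr (), Sum.inr ()))) (fun i : Fin N =>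
    MvPolynomial.C ((-1) ^ ((i : ℕ) + 1)) *
      MvPolynomial.rename (fun q : Fin N × Fin N => ((Sum.inl q.1 : Fin N ⊕ Unit),
        (Sum.inl q.2 : Fin N ⊕ Unit)))
        ((Matrix.charpoly.univ k (Fin N)).coeff (N - ((i : ℕ) + 1)))) Q, fun M c α hM => ?_⟩
  unfold ev
  set E : MvPolynomial ((Fin N ⊕ Unit) × (Fin N ⊕ Unit)) k →+* k :=
    MvPolynomial.eval (fun ij => Matrix.fromBlocks M 0 0 (Matrix.of fun _ _ => c) ij.1 ij.2) with hE
  rw [MvPolynomial.eval₂_comp_left E]
  have h1 : E.comp (Polynomial.eval₂RingHom MvPolynomial.C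
      (MvPolynomial.X (Sum.inr (), Sum.inr ()))) = Polynomial.evalRingHom c := by
    refine Polynomial.ringHom_ext (fun a => ?_) ?_
    · simp [hE]
    · simp [hE]
  have h2 : ∀ i : Fin N, E (MvPolynomial.C ((-1) ^ ((i : ℕ) + 1)) *
      MvPolynomial.rename (fun q : Fin N × Fin N => ((Sum.inl q.1 : Fin N ⊕ Unit),
        (Sum.inl q.2 : Fin N ⊕ Unit)))
        ((Matrix.charpoly.univ k (Fin N)).coeff (N - ((i : ℕ) + 1)))) =
      ∑ t ∈ (Finset.univ : Finset (Fin N)).powersetCard ((i : ℕ) + 1), ∏ j ∈ t, α j := by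
    intro i
    rw [map_mul, hE, MvPolynomial.eval_C, MvPolynomial.eval_rename]
    have h3 : MvPolynomial.eval ((fun ij : (Fin N ⊕ Unit) × (Fin N ⊕ Unit) =>
        Matrix.fromBlocks M 0 0 (Matrix.of fun _ _ => c) ij.1 ij.2) ∘
        (fun q : Fin N × Fin N => ((Sum.inl q.1 : Fin N ⊕ Unit), (Sum.inl q.2 : Fin N ⊕ Unit))))
        ((Matrix.charpoly.univ k (Fin N)).coeff (N - ((i : ℕ) + 1))) =
        M.charpoly.coeff (N - ((i : ℕ) + 1)) := by
      have h4 := Matrix.charpoly.univ_coeff_eval₂Hom (Fin N) (RingHom.id k)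
        (fun q : Fin N × Fin N => M q.1 q.2) (N - ((i : ℕ) + 1))
      have h5 : (Matrix.of (Function.curry fun q : Fin N × Fin N => M q.1 q.2)) = M := by
        ext a b; rfl
      rw [h5] at h4
      exact h4
    rw [h3, hM, te11_coeff, ← mul_assoc, ← pow_add]
    have : (-1 : k) ^ ((i : ℕ) + 1 + ((i : ℕ) + 1)) = 1 := by
      rw [← two_mul, pow_mul]; simp
    rw [this, one_mul]
  have h6 : (E ∘ fun i : Fin N => MvPolynomial.C ((-1) ^ ((i : ℕ) + 1)) *
      MvPolynomial.rename (fun q : Fin N × Fin N => ((Sum.inl q.1 : Fin N ⊕ Unit),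
        (Sum.inl q.2 : Fin N ⊕ Unit)))
        ((Matrix.charpoly.univ k (Fin N)).coeff (N - ((i : ℕ) + 1)))) =
      (MvPolynomial.eval₂Hom (Polynomial.evalRingHom c) α) ∘
        (fun i : Fin N => MvPolynomial.esymm (Fin N) (Polynomial k) ((i : ℕ) + 1)) := by
    funext i
    rw [Function.comp_apply, h2 i, Function.comp_apply]
    unfold MvPolynomial.esymm
    rw [map_sum]
    refine Finset.sum_congr rfl fun t _ => ?_
    rw [map_prod]
    refine Finset.prod_congr rfl fun j _ => ?_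
    simp
  have h7 : (Polynomial.evalRingHom c) = (MvPolynomial.eval₂Hom (Polynomial.evalRingHom c) α).comp
      (algebraMap (Polynomial k) (MvPolynomial (Fin N) (Polynomial k))) := by
    refine RingHom.ext fun a => ?_
    rw [RingHom.comp_apply, MvPolynomial.algebraMap_eq, MvPolynomial.eval₂Hom_C]
  have h8 := MvPolynomial.eval₂_comp_left (MvPolynomial.eval₂Hom (Polynomial.evalRingHom c) α)
    (algebraMap (Polynomial k) (MvPolynomial (Fin N) (Polynomial k)))
    (fun i : Fin N => MvPolynomial.esymm (Fin N) (Polynomial k) ((i : ℕ) + 1)) Q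
  rw [← h7, ← MvPolynomial.aeval_def, hQ'] at h8
  rw [h1, h6, ← h8]
  unfold te11_P
  rw [map_prod]
  refine Finset.prod_congr rfl fun S _ => ?_
  rw [map_sub, map_prod, MvPolynomial.eval₂Hom_C]
  simp

end Pool.Agent.TE
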