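import Pool.Agent.Lib_helper7.TE.Defs

/-!
# TE, block TE12: the Hankel determinant is a polynomial
-/

set_option autoImplicit false

namespace Pool.Agent.TE

open Pool.Agent.TBL Filter Topology

/-- TE12: the Hankel determinant is a polynomial. -/
theorem te12_pr (k : Type*) [Field k] (n : Type*) [Fintype n] [DecidableEq n] (m : ℕ) :
    ∃ Φ : MvPolynomial (n × n) k, ∀ M : Matrix n n k,
      ev M Φ = (Matrix.of fun i j : Fin m => (M ^ ((i : ℕ) + j)).trace ^ 2).det := by
  refine ⟨(Matrix.of fun i j : Fin m =>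
    ((Matrix.mvPolynomialX n n k) ^ ((i : ℕ) + j)).trace ^ 2).det, fun M => ?_⟩
  unfold ev
  rw [RingHom.map_det]
  congr 1
  ext i j
  have h1 : ∀ r : ℕ, MvPolynomial.eval (fun ij : n × n => M ij.1 ij.2)
      ((Matrix.mvPolynomialX n n k) ^ r).trace = (M ^ r).trace := by
    intro r
    have h2 : (MvPolynomial.eval (fun ij : n × n => M ij.1 ij.2)).mapMatrix
        ((Matrix.mvPolynomialX n n k) ^ r) = M ^ r := by
      rw [map_pow, Matrix.mvPolynomialX_mapMatrix_eval]
    rw [← h2, Matrix.trace, Matrix.trace, map_sum]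
    rfl
  rw [RingHom.mapMatrix_apply, Matrix.map_apply, Matrix.of_apply, Matrix.of_apply, map_pow, h1]

end Pool.Agent.TE
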