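import Pool.Agent.Lib_helper7.TE.Defs

/-!
# TE13: invariant subspaces, determinants and roots
-/

set_option autoImplicit false

namespace Pool.Agent.TE

open Pool.Agent.TBL Filter Topology

theorem te13_cp {F V : Type*} [Field F] [AddCommGroup V] [Module F V] [Module.Finite F V]
    (g : V →ₗ[F] V) (W : Submodule F V) (hW : ∀ w ∈ W, g w ∈ W) :
    (g.restrict hW).charpoly ∣ g.charpoly := by
  classical
  let bW := Module.finBasis F W
  let bQ := Module.finBasis F (V ⧸ W)
  have hle : W ≤ W.comap g := fun w hw => hW w hw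
  have hM : LinearMap.toMatrix (bW.sumQuot bQ) (bW.sumQuot bQ) g =
      Matrix.fromBlocks (LinearMap.toMatrix bW bW (g.restrict hW))
        (Matrix.of fun i j => (bW.sumQuot bQ).repr (g ((bW.sumQuot bQ) (Sum.inr j))) (Sum.inl i)) 0
        (LinearMap.toMatrix bQ bQ (W.mapQ W g hle)) := by
    ext i j
    rcases i with i | i <;> rcases j with j | j
    · rw [LinearMap.toMatrix_apply, Matrix.fromBlocks_apply₁₁, LinearMap.toMatrix_apply,
        Module.Basis.sumQuot_inl]
      rw [Module.Basis.sumQuot_repr_inl_of_mem bW bQ _ (hW _ (bW j).2)]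
      rfl
    · rw [LinearMap.toMatrix_apply, Matrix.fromBlocks_apply₁₂]
      rfl
    · rw [LinearMap.toMatrix_apply, Matrix.fromBlocks_apply₂₁, Module.Basis.sumQuot_inl,
        Module.Basis.sumQuot_repr_inr_of_mem bW bQ _ (hW _ (bW j).2)]
      rfl
    · rw [LinearMap.toMatrix_apply, Matrix.fromBlocks_apply₂₂, LinearMap.toMatrix_apply,
        Module.Basis.sumQuot_repr_inr]
      congr 1
      have : bQ j = Submodule.Quotient.mk (bW.sumQuot bQ (Sum.inr j)) :=
        (Module.Basis.sumQuot_inr bW bQ j).symm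
      rw [this]
      rfl
  rw [← LinearMap.charpoly_toMatrix g (bW.sumQuot bQ), hM, Matrix.charpoly_fromBlocks_zero₂₁,
    LinearMap.charpoly_toMatrix]
  exact dvd_mul_right _ _

theorem te13_dvd {F ι : Type*} [Field F] [DecidableEq ι] (a : ι → F) (s : Finset ι) :
    ∀ g : Polynomial F, g.Monic → g ∣ ∏ i ∈ s, (Polynomial.X - Polynomial.C (a i)) →
      ∃ S ⊆ s, g = ∏ i ∈ S, (Polynomial.X - Polynomial.C (a i)) := by
  induction s using Finset.induction_on with
  | empty =>
    intro g hg hd
    rw [Finset.prod_empty] at hd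
    refine ⟨∅, Finset.Subset.refl _, ?_⟩
    rw [Finset.prod_empty]
    exact hg.eq_one_of_isUnit (isUnit_of_dvd_one hd)
  | insert i s hi ih =>
    intro g hg hd
    rw [Finset.prod_insert hi] at hd
    have hirr : Irreducible (Polynomial.X - Polynomial.C (a i)) := Polynomial.irreducible_X_sub_C _
    by_cases h : Polynomial.X - Polynomial.C (a i) ∣ g
    · obtain ⟨g', rfl⟩ := h
      have hg' : g'.Monic := (Polynomial.monic_X_sub_C (a i)).of_mul_monic_left hg
      have hd' : g' ∣ ∏ i ∈ s, (Polynomial.X - Polynomial.C (a i)) :=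
        (mul_dvd_mul_iff_left hirr.ne_zero).1 hd
      obtain ⟨S, hS, hSg⟩ := ih g' hg' hd'
      refine ⟨insert i S, Finset.insert_subset_insert i hS, ?_⟩
      rw [Finset.prod_insert (fun h => hi (hS h)), hSg]
    · have hcop : IsCoprime g (Polynomial.X - Polynomial.C (a i)) :=
        ((hirr.coprime_iff_not_dvd).2 h).symm
      obtain ⟨S, hS, hSg⟩ := ih g hg (hcop.dvd_of_dvd_mul_left hd)
      exact ⟨S, hS.trans (Finset.subset_insert _ _), hSg⟩

/-- TE13: invariant subspaces, determinants and roots. -/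
theorem te13_pr {E k : Type*} [Field E] [IsAlgClosed E] [Field k] {N : ℕ} (il : E →+* k)
    (M : Matrix (Fin N) (Fin N) k) (α : Fin N → E)
    (hM : M.charpoly = (∏ i, (Polynomial.X - Polynomial.C (α i))).map il)
    (U : Submodule k (Fin N → k)) (hU : ∀ u ∈ U, Matrix.toLin' M u ∈ U) (e : E)
    (he : LinearMap.det ((Matrix.toLin' M).restrict hU) = il e) :
    ∃ S ∈ Finset.univ.powersetCard (Module.finrank k U), e = ∏ i ∈ S, α i := by
  have h1 := te13_cp (Matrix.toLin' M) U hU
  have h2 : (Matrix.toLin' M).charpoly = M.charpoly := Matrix.charpoly_toLin' M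
  have h3 : M.charpoly = ∏ i, (Polynomial.X - Polynomial.C (il (α i))) := by
    rw [hM, Polynomial.map_prod]
    refine Finset.prod_congr rfl fun i _ => ?_
    rw [Polynomial.map_sub, Polynomial.map_X, Polynomial.map_C]
  rw [h2, h3] at h1
  obtain ⟨S, -, hS⟩ := te13_dvd (fun i => il (α i)) Finset.univ _ (LinearMap.charpoly_monic _) h1
  have hcard : S.card = Module.finrank k U := by
    rw [← LinearMap.charpoly_natDegree ((Matrix.toLin' M).restrict hU), hS,
      Polynomial.natDegree_prod_of_monic _ _ (fun i _ => Polynomial.monic_X_sub_C _)]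
    simp
  refine ⟨S, Finset.mem_powersetCard.2 ⟨Finset.subset_univ _, hcard⟩, ?_⟩
  apply il.injective
  rw [← he, LinearMap.det_eq_sign_charpoly_coeff, hS, Polynomial.coeff_zero_eq_eval_zero,
    Polynomial.eval_prod, map_prod, ← hcard, ← Finset.prod_const, ← Finset.prod_mul_distrib]
  refine Finset.prod_congr rfl fun i _ => ?_
  simp

end Pool.Agent.TE
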