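import Pool.Agent.Lib_helper7.TE.Defs

/-!
Block TE2: polynomials vanishing on the representation are stable under `DX`.
-/

set_option autoImplicit false

namespace Pool.Agent.TE

open Pool.Agent.TBL Filter Topology

section te2

variable {k : Type*} [Field k] {n : Type*} [Fintype n] [DecidableEq n]

theorem te2_X (M X : Matrix n n k) (ij : n × n) :
    ev M (DX X (MvPolynomial.X ij)) = (X * M) ij.1 ij.2 := by
  unfold DX ev
  rw [MvPolynomial.mkDerivation_X, map_sum, Matrix.mul_apply]
  apply Finset.sum_congr rfl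
  intro l _
  rw [map_mul, MvPolynomial.eval_C, MvPolynomial.eval_X]

theorem te2_add (X Y : Matrix n n k) : DX (X + Y) = DX X + DX Y := by
  apply MvPolynomial.derivation_ext
  intro ij
  rw [Derivation.add_apply]
  unfold DX
  rw [MvPolynomial.mkDerivation_X, MvPolynomial.mkDerivation_X, MvPolynomial.mkDerivation_X,
    ← Finset.sum_add_distrib]
  apply Finset.sum_congr rfl
  intro l _
  rw [Matrix.add_apply, map_add, add_mul]

theorem te2_smul (c : k) (X : Matrix n n k) : DX (c • X) = c • DX X := by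
  apply MvPolynomial.derivation_ext
  intro ij
  rw [Derivation.smul_apply]
  unfold DX
  rw [MvPolynomial.mkDerivation_X, MvPolynomial.mkDerivation_X, Finset.smul_sum]
  apply Finset.sum_congr rfl
  intro l _
  rw [Matrix.smul_apply, smul_eq_mul, map_mul, MvPolynomial.smul_eq_C_mul, mul_assoc]

end te2

section te2b

variable {k : Type*} [NontriviallyNormedField k] {n : Type*} [Fintype n] [DecidableEq n]

theorem te2_lim {M X : Matrix n n k} {Mm : ℕ → Matrix n n k} {c : ℕ → k}
    (h1 : ∀ i j, Tendsto (fun m => Mm m i j) atTop (𝓝 (M i j)))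
    (h2 : ∀ i j, Tendsto (fun m => c m * (Mm m i j - M i j)) atTop (𝓝 ((X * M) i j)))
    (Φ : MvPolynomial (n × n) k) :
    Tendsto (fun m => ev (Mm m) Φ) atTop (𝓝 (ev M Φ)) ∧
      Tendsto (fun m => c m * (ev (Mm m) Φ - ev M Φ)) atTop (𝓝 (ev M (DX X Φ))) := by
  induction Φ using MvPolynomial.induction_on with
  | C a =>
    have e1 : ∀ M' : Matrix n n k, ev M' (MvPolynomial.C a) = a := fun M' =>
      MvPolynomial.eval_C a
    have e2 : ev M (DX X (MvPolynomial.C a)) = 0 := by
      unfold DX ev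
      rw [MvPolynomial.derivation_C, map_zero]
    rw [e2]
    simp only [e1, sub_self, mul_zero]
    exact ⟨tendsto_const_nhds, tendsto_const_nhds⟩
  | add Φ Ψ h3 h4 =>
    have e1 : ∀ M' : Matrix n n k, ev M' (Φ + Ψ) = ev M' Φ + ev M' Ψ := fun M' =>
      map_add _ _ _
    have e2 : ev M (DX X (Φ + Ψ)) = ev M (DX X Φ) + ev M (DX X Ψ) := by
      rw [map_add]
      exact map_add _ _ _
    rw [e2, e1]
    refine ⟨(h3.1.add h4.1).congr fun m => (e1 _).symm, (h3.2.add h4.2).congr fun m => ?_⟩
    rw [e1]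
    ring
  | mul_X Φ ij h3 =>
    have e1 : ∀ M' : Matrix n n k, ev M' (Φ * MvPolynomial.X ij) = ev M' Φ * M' ij.1 ij.2 :=
      fun M' => by
        unfold ev
        rw [map_mul, MvPolynomial.eval_X]
    have e2 : ev M (DX X (Φ * MvPolynomial.X ij)) =
        ev M (DX X Φ) * M ij.1 ij.2 + ev M Φ * (X * M) ij.1 ij.2 := by
      rw [Derivation.leibniz, ← te2_X]
      unfold ev
      rw [map_add, smul_eq_mul, smul_eq_mul, map_mul, map_mul, MvPolynomial.eval_X]
      ring
    rw [e2, e1]
    refine ⟨(h3.1.mul (h1 _ _)).congr fun m => (e1 _).symm,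
      ((h3.2.mul (h1 ij.1 ij.2)).add ((h2 ij.1 ij.2).const_mul (ev M Φ))).congr fun m => ?_⟩
    rw [e1]
    ring

end te2b

section te2c

attribute [local instance] matRing matAlg matUltra matComplete

/-- TE2: polynomials vanishing on the representation are stable under `DX`. -/
theorem te2_aux {k : Type*} [NontriviallyNormedField k] [IsUltrametricDist k] [CompleteSpace k]
    {n : Type*} [Fintype n] [DecidableEq n] {G : Type*} [Group G] (A : G →* Matrix n n k)
    (H : Subgroup G) {p : ℕ} (hp0 : (p : k) ≠ 0) (hp : ‖(p : k)‖ < 1) (hs : Small p A H)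
    (Φ : MvPolynomial (n × n) k) (hΦ : ∀ h ∈ H, ev (A h) Φ = 0) {g : G} (hg : g ∈ H) {h : G}
    (hh : h ∈ H) : ev (A h) (DX (lg k p (A g)) Φ) = 0 := by
  have hN : ‖A g - 1‖ ≤ ‖(p : k)‖ ^ 2 := by
    letI : NormedAddCommGroup (Matrix n n k) := Matrix.normedAddCommGroup
    show ‖A g - 1‖ ≤ ‖(p : k)‖ ^ 2
    rw [Matrix.norm_le_iff (by positivity)]
    exact fun i j => hs g hg i j
  have hent : ∀ {f : ℕ → Matrix n n k} {L : Matrix n n k}, Tendsto f atTop (𝓝 L) →
      ∀ i j, Tendsto (fun m => f m i j) atTop (𝓝 (L i j)) := by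
    intro f L hf i j
    have h1 : Continuous fun M : Matrix n n k => M i j :=
      (continuous_apply j).comp (continuous_apply i)
    exact (h1.tendsto L).comp hf
  have t1 : Tendsto (fun m => A g ^ p ^ m * A h) atTop (𝓝 (A h)) := by
    have := (tendsto_pow_pow (k := k) hp hN).mul_const (A h)
    rwa [one_mul] at this
  have t2 : Tendsto (fun m => dq k p (A g) m * A h) atTop (𝓝 (lg k p (A g) * A h)) :=
    (tendsto_dq (k := k) hp0 hp hN).mul_const (A h)
  have t3 := te2_lim (M := A h) (X := lg k p (A g)) (Mm := fun m => A g ^ p ^ m * A h)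
    (c := fun m => ((p : k) ^ m)⁻¹) (hent t1) (fun i j => by
      refine (hent t2 i j).congr fun m => ?_
      rw [dq, smul_mul_assoc, sub_mul, one_mul]
      rfl) Φ
  refine tendsto_nhds_unique t3.2 (tendsto_const_nhds.congr fun m => ?_)
  have e1 : A g ^ p ^ m * A h = A (g ^ p ^ m * h) := by
    rw [map_mul, map_pow]
  rw [e1, hΦ _ (H.mul_mem (H.pow_mem hg _) hh), hΦ _ hh, sub_zero, mul_zero]

end te2c

/-- TE2: polynomials vanishing on the representation are stable under `DX`. -/
theorem te2_pr {k : Type*} [NontriviallyNormedField k] [IsUltrametricDist k] [CompleteSpace k]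
    {n : Type*} [Fintype n] [DecidableEq n] {G : Type*} [Group G] (A : G →* Matrix n n k)
    (H : Subgroup G) {p : ℕ} (hp0 : (p : k) ≠ 0) (hp : ‖(p : k)‖ < 1) (hs : Small p A H)
    {X : Matrix n n k} (hX : X ∈ sp A H p) (Φ : MvPolynomial (n × n) k)
    (hΦ : ∀ h ∈ H, ev (A h) Φ = 0) : ∀ h ∈ H, ev (A h) (DX X Φ) = 0 := by
  intro h hh
  induction hX using Submodule.span_induction with
  | mem x hx =>
    obtain ⟨g, hg, rfl⟩ := hx
    exact te2_aux A H hp0 hp hs Φ hΦ hg hh
  | zero =>
    have h1 : DX (0 : Matrix n n k) = 0 := by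
      have := te2_smul (0 : k) (0 : Matrix n n k)
      rwa [zero_smul, zero_smul] at this
    rw [h1]
    unfold ev
    rw [Derivation.zero_apply, map_zero]
  | add x y _ _ hx hy =>
    rw [te2_add, Derivation.add_apply]
    unfold ev at hx hy ⊢
    rw [map_add, hx, hy, add_zero]
  | smul c x _ hx =>
    rw [te2_smul, Derivation.smul_apply]
    unfold ev at hx ⊢
    rw [MvPolynomial.smul_eval, hx, mul_zero]

end Pool.Agent.TE
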