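import Pool.Agent.Lib_helper7.TE.Defs

/-!
# Block TE3: exponentiation of a matrix of square zero
-/

set_option autoImplicit false

namespace Pool.Agent.TE

open Pool.Agent.TBL

section TE3

variable {k : Type*} [Field k] {n : Type*} [Fintype n] [DecidableEq n]

/-- `Φ ↦ (t ↦ Φ (M + t X M))` -/
noncomputable def te3_sg (M X : Matrix n n k) : MvPolynomial (n × n) k →ₐ[k] Polynomial k :=
  MvPolynomial.aeval fun ij =>
    Polynomial.C (M ij.1 ij.2) + Polynomial.X * Polynomial.C ((X * M) ij.1 ij.2)

theorem te3_eval (M X : Matrix n n k) (t : k) (Φ : MvPolynomial (n × n) k) :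
    (te3_sg M X Φ).eval t = ev ((1 + t • X) * M) Φ := by
  induction Φ using MvPolynomial.induction_on with
  | C a => simp [te3_sg, ev]
  | add p q hp hq =>
    rw [map_add, Polynomial.eval_add, hp, hq]
    simp [ev]
  | mul_X p i hp =>
    rw [map_mul, Polynomial.eval_mul, hp]
    simp only [ev, map_mul, MvPolynomial.eval_X]
    congr 1
    rw [te3_sg, MvPolynomial.aeval_X, add_mul, one_mul, smul_mul_assoc]
    simp
    exact mul_comm _ _

theorem te3_X (M X : Matrix n n k) (hX : X * X = 0) (ij : n × n) :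
    Polynomial.derivative (te3_sg M X (MvPolynomial.X ij)) =
      te3_sg M X (DX X (MvPolynomial.X ij)) := by
  have h1 : DX X (MvPolynomial.X ij) =
      ∑ l, MvPolynomial.C (X ij.1 l) * MvPolynomial.X (l, ij.2) := by
    rw [DX, MvPolynomial.mkDerivation_X]
  have h2 : (X * (X * M)) ij.1 ij.2 = 0 := by
    rw [← mul_assoc, hX, zero_mul]
    rfl
  rw [h1, map_sum]
  have h3 : ∀ l, te3_sg M X (MvPolynomial.C (X ij.1 l) * MvPolynomial.X (l, ij.2)) =
      Polynomial.C (X ij.1 l * M l ij.2) +
        Polynomial.X * Polynomial.C (X ij.1 l * (X * M) l ij.2) := by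
    intro l
    rw [te3_sg, map_mul, MvPolynomial.aeval_X, MvPolynomial.aeval_C, Polynomial.algebraMap_eq,
      Polynomial.C_mul, Polynomial.C_mul]
    ring
  rw [Finset.sum_congr rfl fun l _ => h3 l, Finset.sum_add_distrib, ← Finset.mul_sum, ← map_sum,
    ← map_sum, ← Matrix.mul_apply, ← Matrix.mul_apply, h2, te3_sg, MvPolynomial.aeval_X]
  simp

theorem te3_deriv (M X : Matrix n n k) (hX : X * X = 0) (Φ : MvPolynomial (n × n) k) :
    Polynomial.derivative (te3_sg M X Φ) = te3_sg M X (DX X Φ) := by
  induction Φ using MvPolynomial.induction_on with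
  | C a =>
    have h1 : DX X (MvPolynomial.C a) = 0 := by
      exact Derivation.map_algebraMap (DX X) a
    rw [h1, map_zero, te3_sg, MvPolynomial.aeval_C, Polynomial.algebraMap_eq,
      Polynomial.derivative_C]
  | add p q hp hq => rw [map_add, Polynomial.derivative_add, hp, hq, map_add, map_add]
  | mul_X p i hp =>
    rw [map_mul, Polynomial.derivative_mul, hp, te3_X M X hX, Derivation.leibniz, map_add,
      smul_eq_mul, smul_eq_mul, map_mul, map_mul]
    ring

theorem te3_iter (M X : Matrix n n k) (hX : X * X = 0) (Φ : MvPolynomial (n × n) k) (r : ℕ) :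
    Polynomial.derivative^[r] (te3_sg M X Φ) = te3_sg M X ((DX X)^[r] Φ) := by
  induction r with
  | zero => rfl
  | succ r ih => rw [Function.iterate_succ_apply', Function.iterate_succ_apply', ih,
      te3_deriv M X hX]

end TE3

/-- TE3: exponentiation of a matrix of square zero. -/
theorem te3_pr {k : Type*} [Field k] [CharZero k] {n : Type*} [Fintype n] [DecidableEq n]
    (M X : Matrix n n k) (hX : X * X = 0) (Φ : MvPolynomial (n × n) k)
    (h : ∀ r : ℕ, ev M ((DX X)^[r] Φ) = 0) (t : k) : ev ((1 + t • X) * M) Φ = 0 := by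
  have h0 : te3_sg M X Φ = 0 := by
    ext r
    have h1 := h r
    have h2 : ev M ((DX X)^[r] Φ) = ev ((1 + (0 : k) • X) * M) ((DX X)^[r] Φ) := by
      rw [zero_smul, add_zero, one_mul]
    rw [h2, ← te3_eval, ← te3_iter M X hX, ← Polynomial.coeff_zero_eq_eval_zero,
      Polynomial.coeff_iterate_derivative, zero_add, Nat.descFactorial_self,
      nsmul_eq_mul] at h1
    rw [Polynomial.coeff_zero]
    exact (mul_eq_zero.1 h1).resolve_left (Nat.cast_ne_zero.2 (Nat.factorial_ne_zero r))
  rw [← te3_eval, h0, Polynomial.eval_zero]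

end Pool.Agent.TE
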