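import Pool.Agent.Lib_helper7.TE.Defs

set_option autoImplicit false

namespace Pool.Agent.TE

open Pool.Agent.TBL Filter Topology

theorem te4_w {k : Type*} [Field k] {n : Type*} [Fintype n] [DecidableEq n] {x y : n}
    (hxy : x ≠ y) (u : k) (hu : u ≠ 0) :
    (1 + Matrix.single x y u) * (1 + Matrix.single y x (-u⁻¹)) * (1 + Matrix.single x y u) =
      1 + Matrix.single x y u + Matrix.single y x (-u⁻¹) - Matrix.single x x 1
        - Matrix.single y y 1 := by
  have h1 : Matrix.single x y u * Matrix.single y x (-u⁻¹) = -Matrix.single x x (1 : k) := by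
    rw [Matrix.single_mul_single_same, mul_neg, mul_inv_cancel₀ hu, Matrix.single_neg]
  have h2 : Matrix.single y x (-u⁻¹) * Matrix.single x y u = -Matrix.single y y (1 : k) := by
    rw [Matrix.single_mul_single_same, neg_mul, inv_mul_cancel₀ hu, Matrix.single_neg]
  have h3 : Matrix.single x y u * Matrix.single x y u = 0 :=
    Matrix.single_mul_single_of_ne u x y _ hxy.symm u
  have h4 : Matrix.single x x (1 : k) * Matrix.single x y u = Matrix.single x y u := by
    rw [Matrix.single_mul_single_same, one_mul]
  generalize Matrix.single x y u = A at *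
  generalize Matrix.single y x (-u⁻¹) = B at *
  generalize Matrix.single x x (1 : k) = P at *
  generalize Matrix.single y y (1 : k) = Q at *
  calc (1 + A) * (1 + B) * (1 + A) = 1 + A + B + A * B + A + A * A + B * A + (A * B) * A := by
        noncomm_ring
    _ = 1 + A + B - P - Q := by
        rw [h1, h2, h3, neg_mul, h4]; abel

theorem te4_h {k : Type*} [Field k] {n : Type*} [Fintype n] [DecidableEq n] {x y : n}
    (hxy : x ≠ y) (u : k) (hu : u ≠ 0) :
    ((1 + Matrix.single x y u) * (1 + Matrix.single y x (-u⁻¹)) * (1 + Matrix.single x y u)) *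
    ((1 + Matrix.single x y (-1 : k)) * (1 + Matrix.single y x (-(-1 : k)⁻¹)) *
      (1 + Matrix.single x y (-1 : k))) =
      Matrix.diagonal (fun i => if i = x then u else if i = y then u⁻¹ else 1) := by
  rw [te4_w hxy u hu, te4_w hxy (-1) (by simp)]
  have e1 : Matrix.single x y u * Matrix.single y x (-(-1 : k)⁻¹) = Matrix.single x x u := by
    rw [Matrix.single_mul_single_same]; congr 1; norm_num
  have e2 : Matrix.single y x (-u⁻¹) * Matrix.single x y (-1 : k) = Matrix.single y y u⁻¹ := by
    rw [Matrix.single_mul_single_same]; congr 1; ring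
  have e3 : Matrix.single x y u * Matrix.single x y (-1 : k) = 0 :=
    Matrix.single_mul_single_of_ne u x y _ hxy.symm _
  have e4 : Matrix.single y x (-u⁻¹) * Matrix.single y x (-(-1 : k)⁻¹) = 0 :=
    Matrix.single_mul_single_of_ne _ y x _ hxy _
  have e5 : Matrix.single x y u * Matrix.single x x (1 : k) = 0 :=
    Matrix.single_mul_single_of_ne u x y _ hxy.symm _
  have e6 : Matrix.single x y u * Matrix.single y y (1 : k) = Matrix.single x y u := by
    rw [Matrix.single_mul_single_same, mul_one]
  have e7 : Matrix.single y x (-u⁻¹) * Matrix.single x x (1 : k) = Matrix.single y x (-u⁻¹) := by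
    rw [Matrix.single_mul_single_same, mul_one]
  have e8 : Matrix.single y x (-u⁻¹) * Matrix.single y y (1 : k) = 0 :=
    Matrix.single_mul_single_of_ne _ y x _ hxy _
  have e9 : Matrix.single x x (1 : k) * Matrix.single x y (-1 : k) = Matrix.single x y (-1 : k) := by
    rw [Matrix.single_mul_single_same, one_mul]
  have e10 : Matrix.single x x (1 : k) * Matrix.single y x (-(-1 : k)⁻¹) = 0 :=
    Matrix.single_mul_single_of_ne _ x x _ hxy _
  have e11 : Matrix.single x x (1 : k) * Matrix.single x x (1 : k) = Matrix.single x x 1 := by
    rw [Matrix.single_mul_single_same, one_mul]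
  have e12 : Matrix.single x x (1 : k) * Matrix.single y y (1 : k) = 0 :=
    Matrix.single_mul_single_of_ne _ x x _ hxy _
  have e13 : Matrix.single y y (1 : k) * Matrix.single x y (-1 : k) = 0 :=
    Matrix.single_mul_single_of_ne _ y y _ hxy.symm _
  have e14 : Matrix.single y y (1 : k) * Matrix.single y x (-(-1 : k)⁻¹) =
      Matrix.single y x (-(-1 : k)⁻¹) := by
    rw [Matrix.single_mul_single_same, one_mul]
  have e15 : Matrix.single y y (1 : k) * Matrix.single x x (1 : k) = 0 :=
    Matrix.single_mul_single_of_ne _ y y _ hxy.symm _
  have e16 : Matrix.single y y (1 : k) * Matrix.single y y (1 : k) = Matrix.single y y 1 := by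
    rw [Matrix.single_mul_single_same, one_mul]
  have hd : Matrix.diagonal (fun i => if i = x then u else if i = y then u⁻¹ else 1) =
      1 - Matrix.single x x (1 : k) - Matrix.single y y (1 : k) + Matrix.single x x u +
        Matrix.single y y u⁻¹ := by
    ext i j
    simp only [Matrix.diagonal_apply, Matrix.add_apply, Matrix.sub_apply, Matrix.one_apply,
      Matrix.single_apply]
    by_cases hij : i = j
    · subst hij
      by_cases hx : x = i
      · subst hx
        simp [hxy.symm]
      · by_cases hy : y = i
        · subst hy
          simp [hx, hxy.symm]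
        · simp [hx, hy, Ne.symm hx, Ne.symm hy, fun h : i = x => hx h.symm,
            fun h : i = y => hy h.symm]
    · have hx : ¬ (x = i ∧ x = j) := fun h => hij (h.1.symm.trans h.2)
      have hy : ¬ (y = i ∧ y = j) := fun h => hij (h.1.symm.trans h.2)
      simp [hij, hx, hy]
  rw [hd]
  generalize Matrix.single x y u = A at *
  generalize Matrix.single y x (-u⁻¹) = B at *
  generalize Matrix.single x x (1 : k) = P at *
  generalize Matrix.single y y (1 : k) = Q at *
  generalize Matrix.single x x u = P' at *
  generalize Matrix.single y y u⁻¹ = Q' at *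
  generalize Matrix.single x y (-1 : k) = A' at *
  generalize Matrix.single y x (-(-1 : k)⁻¹) = B' at *
  calc (1 + A + B - P - Q) * (1 + A' + B' - P - Q)
      = 1 + A' + B' - P - Q + A + A * A' + A * B' - A * P - A * Q + B + B * A' + B * B' - B * P
        - B * Q - P - P * A' - P * B' + P * P + P * Q - Q - Q * A' - Q * B' + Q * P + Q * Q := by
        noncomm_ring
    _ = 1 - P - Q + P' + Q' := by
        rw [e1, e2, e3, e4, e5, e6, e7, e8, e9, e10, e11, e12, e13, e14, e15, e16]
        abel

theorem te4_hm {k : Type*} [Field k] {n B : Type*} [Fintype n] [DecidableEq n] [DecidableEq B]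
    (f : n → B) (C : Submonoid (Matrix n n k))
    (hC : ∀ x y, x ≠ y → f x = f y → ∀ t : k, 1 + t • Matrix.single x y 1 ∈ C) {x y : n}
    (hxy : x ≠ y) (hf : f x = f y) (u : k) (hu : u ≠ 0) :
    Matrix.diagonal (fun i => if i = x then u else if i = y then u⁻¹ else 1) ∈ C := by
  have h1 : ∀ a b, a ≠ b → f a = f b → ∀ t : k, 1 + Matrix.single a b t ∈ C := by
    intro a b hab hfab t
    have := hC a b hab hfab t
    rwa [Matrix.smul_single, smul_eq_mul, mul_one] at this
  rw [← te4_h hxy u hu]
  exact C.mul_mem (C.mul_mem (C.mul_mem (h1 x y hxy hf _) (h1 y x hxy.symm hf.symm _))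
    (h1 x y hxy hf _)) (C.mul_mem (C.mul_mem (h1 x y hxy hf _) (h1 y x hxy.symm hf.symm _))
    (h1 x y hxy hf _))

theorem te4_pr {k : Type*} [Field k] {n B : Type*} [Fintype n] [DecidableEq n] [DecidableEq B]
    (f : n → B) (C : Submonoid (Matrix n n k))
    (hC : ∀ x y, x ≠ y → f x = f y → ∀ t : k, 1 + t • Matrix.single x y 1 ∈ C) (d : n → k)
    (hd : ∀ b, ∏ x with f x = b, d x = 1) : Matrix.diagonal d ∈ C := by
  classical
  suffices h : ∀ (m : ℕ) (d : n → k), (Finset.univ.filter (fun x => d x ≠ 1)).card ≤ m →
      (∀ b, ∏ x with f x = b, d x = 1) → Matrix.diagonal d ∈ C from h _ d le_rfl hd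
  intro m
  induction m with
  | zero =>
    intro d hm _
    have h1 : ∀ x, d x = 1 := by
      intro x
      by_contra hx
      have : x ∈ Finset.univ.filter (fun x => d x ≠ 1) := by simp [hx]
      have h2 := Finset.card_pos.2 ⟨x, this⟩
      omega
    have : Matrix.diagonal d = 1 := by
      rw [show d = fun _ => 1 from funext h1]
      exact Matrix.diagonal_one
    rw [this]
    exact C.one_mem
  | succ m ih =>
    intro d hm hd
    by_cases hall : ∀ x, d x = 1
    · have : Matrix.diagonal d = 1 := by
        rw [show d = fun _ => 1 from funext hall]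
        exact Matrix.diagonal_one
      rw [this]
      exact C.one_mem
    · push Not at hall
      obtain ⟨x, hx⟩ := hall
      -- all entries are nonzero
      have hne : ∀ z, d z ≠ 0 := by
        intro z hz
        have h1 := hd (f z)
        rw [Finset.prod_eq_zero (i := z) (by simp) hz] at h1
        exact zero_ne_one h1
      obtain ⟨y, hyx, hfy, hy⟩ : ∃ y, y ≠ x ∧ f y = f x ∧ d y ≠ 1 := by
        by_contra hcon
        push Not at hcon
        apply hx
        have h1 := hd (f x)
        rw [Finset.prod_eq_single x] at h1
        · exact h1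
        · intro z hz hzx
          rw [Finset.mem_filter] at hz
          exact hcon z hzx hz.2
        · intro h; simp at h
      set d' : n → k := fun i => if i = x then 1 else if i = y then d x * d y else d i with hd'
      have hprod : Matrix.diagonal d =
          Matrix.diagonal (fun i => if i = x then d x else if i = y then (d x)⁻¹ else 1) *
            Matrix.diagonal d' := by
        rw [Matrix.diagonal_mul_diagonal]
        congr 1
        funext i
        simp only [hd']
        by_cases h1 : i = x
        · subst h1; simp
        · by_cases h2 : i = y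
          · subst h2
            simp only [h1, if_false, if_true]
            rw [inv_mul_cancel_left₀ (hne x)]
          · simp [h1, h2]
      rw [hprod]
      refine C.mul_mem (te4_hm f C hC hyx.symm hfy.symm (d x) (hne x)) (ih d' ?_ ?_)
      · -- the support is smaller
        have hsub : Finset.univ.filter (fun z => d' z ≠ 1) ⊆
            (Finset.univ.filter (fun z => d z ≠ 1)).erase x := by
          intro z hz
          rw [Finset.mem_filter] at hz
          rw [Finset.mem_erase, Finset.mem_filter]
          have hzx : z ≠ x := by
            rintro rfl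
            apply hz.2
            simp [hd']
          refine ⟨hzx, Finset.mem_univ _, ?_⟩
          by_cases hzy : z = y
          · rw [hzy]; exact hy
          · intro h1
            apply hz.2
            simp [hd', hzx, hzy, h1]
        have h1 := Finset.card_le_card hsub
        have h2 : x ∈ Finset.univ.filter (fun z => d z ≠ 1) := by simp [hx]
        rw [Finset.card_erase_of_mem h2] at h1
        have h3 := Finset.card_pos.2 ⟨x, h2⟩
        omega
      · intro b
        by_cases hb : b = f x
        · subst hb
          have hxm : x ∈ Finset.univ.filter (fun z => f z = f x) := by simp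
          have hym : y ∈ (Finset.univ.filter (fun z => f z = f x)).erase x := by
            rw [Finset.mem_erase, Finset.mem_filter]
            exact ⟨hyx, Finset.mem_univ _, hfy⟩
          have h1 := hd (f x)
          rw [← Finset.mul_prod_erase _ _ hxm, ← Finset.mul_prod_erase _ _ hym] at h1 ⊢
          have h2 : ∏ z ∈ ((Finset.univ.filter (fun z => f z = f x)).erase x).erase y, d' z =
              ∏ z ∈ ((Finset.univ.filter (fun z => f z = f x)).erase x).erase y, d z := by
            refine Finset.prod_congr rfl fun z hz => ?_
            rw [Finset.mem_erase, Finset.mem_erase] at hz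
            simp [hd', hz.1, hz.2.1]
          rw [h2]
          have h3 : d' x = 1 := by simp [hd']
          have h4 : d' y = d x * d y := by simp [hd', hyx]
          rw [h3, h4, one_mul, mul_assoc]
          exact h1
        · rw [← hd b]
          refine Finset.prod_congr rfl fun z hz => ?_
          rw [Finset.mem_filter] at hz
          have hzx : z ≠ x := by rintro rfl; exact hb hz.2.symm
          have hzy : z ≠ y := by rintro rfl; exact hb (hz.2.symm.trans hfy)
          simp [hd', hzx, hzy]

end Pool.Agent.TE
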