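import Pool.Agent.Lib_helper7.TE.Defs

/-!
# TE5: the Hankel determinant of the traces of powers of `M ⊗ M`
-/

set_option autoImplicit false

namespace Pool.Agent.TE

open Pool.Agent.TBL

/-- The product of an unordered pair. -/
def te5_b {k : Type*} [Field k] {ι : Type*} (α : ι → k) (s : Sym2 ι) : k :=
  Sym2.lift ⟨fun x y => α x * α y, fun x y => mul_comm _ _⟩ s

theorem te5_b_mk {k : Type*} [Field k] {ι : Type*} (α : ι → k) (x y : ι) :
    te5_b α s(x, y) = α x * α y := rfl

theorem te5_inj {k : Type*} [Field k] {ι : Type*} (α : ι → k) :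
    Function.Injective (te5_b α) ↔ PairDistinct α := by
  constructor
  · intro h x y x' y' hxy
    have := @h s(x, y) s(x', y') (by rw [te5_b_mk, te5_b_mk]; exact hxy)
    rw [Sym2.eq_iff] at this
    exact this
  · intro h s t
    induction s using Sym2.ind with
    | _ x y =>
      induction t using Sym2.ind with
      | _ x' y' =>
        intro hst
        rw [te5_b_mk, te5_b_mk] at hst
        rw [Sym2.eq_iff]
        exact h x y x' y' hst

theorem te5_pr {k : Type*} [Field k] [CharZero k] {ι : Type*} [Fintype ι] (α : ι → k) :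
    (Matrix.of fun i j : Fin (Fintype.card ι * (Fintype.card ι + 1) / 2) =>
      (∑ x, α x ^ ((i : ℕ) + j)) ^ 2).det ≠ 0 ↔ PairDistinct α := by
  classical
  set M : ℕ := Fintype.card ι * (Fintype.card ι + 1) / 2 with hM
  have hcard : Fintype.card (Sym2 ι) = M := by
    rw [Sym2.card, Nat.choose_two_right, Nat.add_sub_cancel, mul_comm, hM]
  let e : Fin M ≃ Sym2 ι := (Fintype.equivFinOfCardEq hcard).symm
  let w : Sym2 ι → k := fun s =>
    ((Finset.univ.filter fun q : ι × ι => Sym2.mk q.1 q.2 = s).card : k)
  have hw : ∀ s, w s ≠ 0 := by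
    intro s
    induction s using Sym2.ind with
    | _ x y =>
      have h0 : (Finset.univ.filter fun q : ι × ι => Sym2.mk q.1 q.2 = s(x, y)).card ≠ 0 := by
        rw [Finset.card_ne_zero]
        exact ⟨(x, y), by simp⟩
      exact Nat.cast_ne_zero.mpr h0
  have hsum : ∀ r : ℕ, (∑ x, α x ^ r) ^ 2 = ∑ s : Sym2 ι, w s * te5_b α s ^ r := by
    intro r
    have h1 : (∑ x, α x ^ r) ^ 2 = ∑ q : ι × ι, te5_b α (Sym2.mk q.1 q.2) ^ r := by
      rw [sq, Finset.sum_mul_sum, ← Finset.univ_product_univ, Finset.sum_product]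
      refine Finset.sum_congr rfl fun x _ => Finset.sum_congr rfl fun y _ => ?_
      rw [te5_b_mk, mul_pow]
    rw [h1, ← Finset.sum_fiberwise (s := Finset.univ)
      (g := fun q : ι × ι => Sym2.mk q.1 q.2)]
    refine Finset.sum_congr rfl fun s _ => ?_
    rw [Finset.sum_congr rfl (g := fun _ => te5_b α s ^ r), Finset.sum_const, nsmul_eq_mul]
    intro q hq
    rw [(Finset.mem_filter.mp hq).2]
  have hfac : (Matrix.of fun i j : Fin M => (∑ x, α x ^ ((i : ℕ) + j)) ^ 2) =
      Matrix.transpose (Matrix.vandermonde fun i => te5_b α (e i)) *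
        Matrix.diagonal (fun i => w (e i)) * Matrix.vandermonde fun i => te5_b α (e i) := by
    ext i j
    rw [Matrix.of_apply, hsum, Matrix.mul_apply, ← e.sum_comp]
    refine Finset.sum_congr rfl fun s _ => ?_
    rw [Matrix.mul_diagonal, Matrix.transpose_apply, Matrix.vandermonde_apply,
      Matrix.vandermonde_apply, pow_add]
    ring
  rw [hfac, Matrix.det_mul, Matrix.det_mul, Matrix.det_transpose, Matrix.det_diagonal]
  rw [← te5_inj]
  have hprod : (∏ i, w (e i)) ≠ 0 := Finset.prod_ne_zero_iff.mpr fun i _ => hw _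
  have hv : (Matrix.vandermonde fun i => te5_b α (e i)).det ≠ 0 ↔
      Function.Injective (te5_b α) := by
    rw [Matrix.det_vandermonde_ne_zero_iff]
    constructor
    · intro h s t hst
      have := @h (e.symm s) (e.symm t) (by simpa using hst)
      exact e.symm.injective this
    · intro h
      exact h.comp e.injective
  rw [← hv]
  constructor
  · intro h h0
    apply h
    rw [h0, mul_zero]
  · intro h
    exact mul_ne_zero (mul_ne_zero h hprod) h

end Pool.Agent.TE
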