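import Pool.Agent.Lib_helper7.TE.Defs

/-!
# TE6: a generic diagonal element
-/

set_option autoImplicit false

namespace Pool.Agent.TE

open Pool.Agent.TBL Filter Topology

theorem te6_val_prod {ι : Type*} {p : ℕ} [Fact p.Prime] (s : Finset ι) (f : ι → ℚ)
    (hf : ∀ z ∈ s, f z ≠ 0) : padicValRat p (∏ z ∈ s, f z) = ∑ z ∈ s, padicValRat p (f z) := by
  classical
  induction s using Finset.induction_on with
  | empty => simp
  | insert i s hi ih =>
    rw [Finset.prod_insert hi, Finset.sum_insert hi, padicValRat.mul (hf i (Finset.mem_insert_self i s))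
      (Finset.prod_ne_zero_iff.2 fun z hz => hf z (Finset.mem_insert_of_mem hz)),
      ih fun z hz => hf z (Finset.mem_insert_of_mem hz)]

theorem te6_val_prime {ι : Type*} [DecidableEq ι] (q : ι → ℕ) (hq : ∀ z, (q z).Prime)
    (hinj : Function.Injective q) (x z : ι) :
    padicValRat (q z) (q x : ℚ) = if x = z then 1 else 0 := by
  have := Fact.mk (hq z)
  have := Fact.mk (hq x)
  rw [padicValRat.of_nat]
  split_ifs with h
  · subst h
    rw [padicValNat_self]
    rfl
  · rw [padicValNat_primes (fun h' => h (hinj h'.symm))]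
    rfl

/-- the rational numbers used for the generic element -/
noncomputable def te6_D {R : Type*} (N : R → ℕ) (q : (Σ a, Fin (N a)) → ℕ)
    (x : Σ a, Fin (N a)) : ℚ :=
  (q x : ℚ) ^ N x.1 / ∏ j, (q ⟨x.1, j⟩ : ℚ)

theorem te6_D_ne {R : Type*} (N : R → ℕ) (q : (Σ a, Fin (N a)) → ℕ) (hq : ∀ z, (q z).Prime)
    (x : Σ a, Fin (N a)) : te6_D N q x ≠ 0 := by
  unfold te6_D
  refine div_ne_zero (pow_ne_zero _ ?_) (Finset.prod_ne_zero_iff.2 fun j _ => ?_)
  · exact_mod_cast (hq _).ne_zero
  · exact_mod_cast (hq _).ne_zero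

theorem te6_D_prod {R : Type*} (N : R → ℕ) (q : (Σ a, Fin (N a)) → ℕ) (hq : ∀ z, (q z).Prime)
    (a : R) : ∏ i, te6_D N q ⟨a, i⟩ = 1 := by
  unfold te6_D
  show ∏ i : Fin (N a), ((q ⟨a, i⟩ : ℚ) ^ N a / ∏ j, (q ⟨a, j⟩ : ℚ)) = 1
  rw [Finset.prod_div_distrib, Finset.prod_const, Finset.card_univ, Fintype.card_fin,
    Finset.prod_pow]
  refine div_self (pow_ne_zero _ (Finset.prod_ne_zero_iff.2 fun j _ => ?_))
  exact_mod_cast (hq _).ne_zero

open scoped Classical in
theorem te6_D_val {R : Type*} (N : R → ℕ) (q : (Σ a, Fin (N a)) → ℕ) (hq : ∀ z, (q z).Prime)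
    (hinj : Function.Injective q) (x z : Σ a, Fin (N a)) :
    padicValRat (q z) (te6_D N q x) =
      (N z.1 : ℤ) * (if x = z then 1 else 0) - if x.1 = z.1 then 1 else 0 := by
  have := Fact.mk (hq z)
  have hne : ∀ y, (q y : ℚ) ≠ 0 := fun y => by exact_mod_cast (hq y).ne_zero
  unfold te6_D
  rw [padicValRat.div (pow_ne_zero _ (hne _)) (Finset.prod_ne_zero_iff.2 fun j _ => hne _),
    padicValRat.pow, te6_val_prod _ _ (fun j _ => hne _), te6_val_prime q hq hinj]
  have h1 : ∑ j, padicValRat (q z) (q ⟨x.1, j⟩ : ℚ) = if x.1 = z.1 then 1 else 0 := by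
    have h2 : ∀ j : Fin (N x.1), padicValRat (q z) (q ⟨x.1, j⟩ : ℚ) =
        if (⟨x.1, j⟩ : Σ a, Fin (N a)) = z then 1 else 0 := fun j => te6_val_prime q hq hinj _ _
    rw [Finset.sum_congr rfl fun j _ => h2 j]
    obtain ⟨b, z⟩ := z
    split_ifs with h
    · have h' : x.1 = b := h
      subst h'
      rw [Finset.sum_eq_single z]
      · simp
      · intro j _ hj
        rw [if_neg]
        intro h3
        exact hj (by simpa using h3)
      · intro h3
        exact absurd (Finset.mem_univ _) h3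
    · refine Finset.sum_eq_zero fun j _ => if_neg fun h3 => h ?_
      have h4 := congrArg Sigma.fst h3
      exact h4
  rw [h1]
  by_cases hxz : x = z
  · subst hxz
    simp
  · simp [hxz]

/-- TE6: a generic diagonal element. -/
theorem te6_pr {k : Type*} [Field k] [CharZero k] {R : Type*} [Fintype R] (N : R → ℕ)
    (hN : ∀ a, 3 ≤ N a) :
    ∃ d : (Σ a, Fin (N a)) → k, (∀ a, ∏ i, d ⟨a, i⟩ = 1) ∧ PairDistinct d := by
  classical
  obtain ⟨q, hq, hinj⟩ : ∃ q : (Σ a, Fin (N a)) → ℕ, (∀ z, (q z).Prime) ∧ Function.Injective q := by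
    refine ⟨fun z => Nat.nth Nat.Prime (Fintype.equivFin (Σ a, Fin (N a)) z), fun z =>
      Nat.prime_nth_prime _, fun x y h => ?_⟩
    have h1 := Nat.nth_injective Nat.infinite_setOfPred_prime h
    exact (Fintype.equivFin (Σ a, Fin (N a))).injective (Fin.ext h1)
  refine ⟨fun x => ((te6_D N q x : ℚ) : k), fun a => ?_, ?_⟩
  · have h1 := te6_D_prod N q hq a
    have h2 : ((∏ i, te6_D N q ⟨a, i⟩ : ℚ) : k) = 1 := by rw [h1, Rat.cast_one]
    rw [Rat.cast_prod] at h2
    exact h2
  · intro x y x' y' h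
    have h1 : te6_D N q x * te6_D N q y = te6_D N q x' * te6_D N q y' := by
      have h2 : ((te6_D N q x * te6_D N q y : ℚ) : k) = ((te6_D N q x' * te6_D N q y' : ℚ) : k) := by
        rw [Rat.cast_mul, Rat.cast_mul]
        exact h
      exact Rat.cast_injective h2
    have key : ∀ z, (if x = z then 1 else 0) + (if y = z then 1 else 0) =
        ((if x' = z then 1 else 0) + (if y' = z then 1 else 0) : ℤ) := fun z => by
      have := Fact.mk (hq z)
      have h2 := congrArg (padicValRat (q z)) h1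
      rw [padicValRat.mul (te6_D_ne N q hq _) (te6_D_ne N q hq _),
        padicValRat.mul (te6_D_ne N q hq _) (te6_D_ne N q hq _), te6_D_val N q hq hinj,
        te6_D_val N q hq hinj, te6_D_val N q hq hinj, te6_D_val N q hq hinj] at h2
      have h3 : (3 : ℤ) ≤ N z.1 := by exact_mod_cast hN z.1
      have b1 : (0 : ℤ) ≤ (if x.1 = z.1 then 1 else 0) ∧ (if x.1 = z.1 then 1 else 0) ≤ (1 : ℤ) := by
        split_ifs <;> simp
      have b2 : (0 : ℤ) ≤ (if y.1 = z.1 then 1 else 0) ∧ (if y.1 = z.1 then 1 else 0) ≤ (1 : ℤ) := by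
        split_ifs <;> simp
      have b3 : (0 : ℤ) ≤ (if x'.1 = z.1 then 1 else 0) ∧ (if x'.1 = z.1 then 1 else 0) ≤ (1 : ℤ) := by
        split_ifs <;> simp
      have b4 : (0 : ℤ) ≤ (if y'.1 = z.1 then 1 else 0) ∧ (if y'.1 = z.1 then 1 else 0) ≤ (1 : ℤ) := by
        split_ifs <;> simp
      generalize (if x.1 = z.1 then (1 : ℤ) else 0) = c1 at *
      generalize (if y.1 = z.1 then (1 : ℤ) else 0) = c2 at *
      generalize (if x'.1 = z.1 then (1 : ℤ) else 0) = c3 at *
      generalize (if y'.1 = z.1 then (1 : ℤ) else 0) = c4 at *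
      generalize (if x = z then (1 : ℤ) else 0) = e1 at *
      generalize (if y = z then (1 : ℤ) else 0) = e2 at *
      generalize (if x' = z then (1 : ℤ) else 0) = e3 at *
      generalize (if y' = z then (1 : ℤ) else 0) = e4 at *
      have h4 : (N z.1 : ℤ) * (e1 + e2 - (e3 + e4)) = c1 + c2 - c3 - c4 := by linarith
      by_contra hne
      rcases lt_or_gt_of_ne hne with h5 | h5
      · have h6 : e1 + e2 - (e3 + e4) ≤ -1 := by omega
        nlinarith [b1.1, b2.1, b3.2, b4.2]
      · have h6 : 1 ≤ e1 + e2 - (e3 + e4) := by omega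
        nlinarith [b1.2, b2.2, b3.1, b4.1]
    have kx := key x
    have ky := key y
    rw [if_pos rfl] at kx
    by_cases hx : x' = x
    · subst hx
      rw [if_pos rfl] at ky kx
      by_cases hy : y' = y
      · exact Or.inl ⟨rfl, hy.symm⟩
      · exfalso
        rw [if_neg hy] at ky
        omega
    · rw [if_neg hx] at kx
      by_cases hy : y' = x
      · subst hy
        by_cases hxy : x' = y
        · exact Or.inr ⟨rfl, hxy.symm⟩
        · exfalso
          rw [if_pos rfl, if_neg hxy] at ky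
          omega
      · exfalso
        rw [if_neg hy] at kx
        by_cases hyx : y = x
        · rw [if_pos hyx] at kx
          omega
        · rw [if_neg hyx] at kx
          omega

end Pool.Agent.TE
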