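import Pool.Agent.Lib_helper7.TE.Defs

set_option autoImplicit false

namespace Pool.Agent.TE

open Pool.Agent.TBL Polynomial

/-- The determinant of a block diagonal matrix with blocks of different sizes. -/
theorem te7_det {A : Type*} [CommRing A] {R : Type*} [Fintype R] [DecidableEq R]
    {N : R → ℕ} (b : (a : R) → Matrix (Fin (N a)) (Fin (N a)) A) :
    (Matrix.blockDiagonal' b).det = ∏ a, (b a).det := by
  classical
  let _ : LinearOrder R := LinearOrder.lift' (Fintype.equivFin R) (Fintype.equivFin R).injective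
  have h : Matrix.BlockTriangular (Matrix.blockDiagonal' b)
      (fun x : (Σ a, Fin (N a)) => x.1) := by
    intro i j hij
    exact Matrix.blockDiagonal'_apply_ne b _ _ (ne_of_gt hij)
  have h2 : (Matrix.blockDiagonal' b).det = ∏ k : R,
      (Matrix.toSquareBlock (Matrix.blockDiagonal' b)
        (fun x : (Σ a, Fin (N a)) => x.1) k).det := by
    convert h.det_fintype
  rw [h2]
  refine Finset.prod_congr rfl fun k _ => ?_
  let e : Fin (N k) ≃ {x : (Σ a, Fin (N a)) // x.1 = k} :=
    { toFun := fun i => ⟨⟨k, i⟩, rfl⟩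
      invFun := fun x => x.2 ▸ x.1.2
      left_inv := fun i => rfl
      right_inv := by
        rintro ⟨⟨a, i⟩, rfl⟩
        rfl }
  rw [← Matrix.det_submatrix_equiv_self e]
  congr 1
  ext i j
  simp only [Matrix.submatrix_apply, Matrix.toSquareBlock, Matrix.toSquareBlockProp,
    Matrix.of_apply]
  exact Matrix.blockDiagonal'_apply_eq b k i j

theorem te7_charpoly {k : Type*} [Field k] {R : Type*} [Fintype R] [DecidableEq R]
    {N : R → ℕ} (b : (a : R) → Matrix (Fin (N a)) (Fin (N a)) k) :
    (Matrix.blockDiagonal' b).charpoly = ∏ a, (b a).charpoly := by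
  classical
  have h : (Matrix.blockDiagonal' b).charmatrix = Matrix.blockDiagonal' fun a =>
      (b a).charmatrix := by
    ext1 ⟨a, i⟩ ⟨a', j⟩
    by_cases ha : a = a'
    · subst ha
      rw [Matrix.blockDiagonal'_apply_eq]
      by_cases hij : i = j
      · subst hij
        rw [Matrix.charmatrix_apply_eq, Matrix.charmatrix_apply_eq,
          Matrix.blockDiagonal'_apply_eq]
      · rw [Matrix.charmatrix_apply_ne _ _ _ hij, Matrix.charmatrix_apply_ne,
          Matrix.blockDiagonal'_apply_eq]
        intro h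
        apply hij
        injection h with _ h2
    · rw [Matrix.blockDiagonal'_apply_ne _ _ _ ha, Matrix.charmatrix_apply_ne,
        Matrix.blockDiagonal'_apply_ne _ _ _ ha, map_zero, neg_zero]
      intro h
      apply ha
      injection h with h1
  unfold Matrix.charpoly
  rw [h, te7_det]

/-- Enumeration of the roots. -/
theorem te7_enum {k : Type*} [Field k] [IsAlgClosed k] (q : k[X]) (hq : q.Monic) {m : ℕ}
    (hm : q.natDegree = m) : ∃ g : Fin m → k, q = ∏ i, (X - C (g i)) := by
  have hs := IsAlgClosed.splits q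
  have h1 := hs.eq_prod_roots_of_monic hq
  have hc : q.roots.card = m := by
    rw [← hm]
    exact splits_iff_card_roots.1 hs
  have hl : q.roots.toList.length = m := by
    rw [Multiset.length_toList, hc]
  subst hl
  refine ⟨fun i => q.roots.toList.get i, ?_⟩
  rw [← List.prod_ofFn]
  have h2 : (List.ofFn fun i => X - C (q.roots.toList.get i)) =
      q.roots.toList.map fun a => X - C a := by
    conv_rhs => rw [← List.ofFn_get q.roots.toList, List.map_ofFn]
    rfl
  rw [h2]
  conv_lhs => rw [h1, ← Multiset.coe_toList q.roots, Multiset.map_coe, Multiset.prod_coe]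

/-- Diagonalization of a matrix with distinct eigenvalues. -/
theorem te7_diag {k : Type*} [Field k] {m : ℕ} (b : Matrix (Fin m) (Fin m) k) (g : Fin m → k)
    (hg : Function.Injective g) (hb : b.charpoly = ∏ i, (X - C (g i))) :
    ∃ P Q : Matrix (Fin m) (Fin m) k, P * Q = 1 ∧ Q * P = 1 ∧ Q * b * P = Matrix.diagonal g := by
  have hv : ∀ i, ∃ v : Fin m → k, Module.End.HasEigenvector (Matrix.toLin' b) (g i) v := by
    intro i
    have hr : Module.End.HasEigenvalue (Matrix.toLin' b) (g i) := by
      rw [Module.End.hasEigenvalue_iff_isRoot_charpoly, Matrix.charpoly_toLin', hb,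
        Polynomial.IsRoot.def, Polynomial.eval_prod]
      exact Finset.prod_eq_zero (Finset.mem_univ i) (by simp)
    exact hr.exists_hasEigenvector
  choose v hv using hv
  have hli := Module.End.eigenvectors_linearIndependent' (Matrix.toLin' b) g hg v hv
  let P : Matrix (Fin m) (Fin m) k := (Matrix.of v).transpose
  have hu : IsUnit P := by
    rw [← Matrix.isUnit_transpose]
    rw [Matrix.transpose_transpose]
    exact Matrix.linearIndependent_rows_iff_isUnit.1 hli
  have hd : IsUnit P.det := (Matrix.isUnit_iff_isUnit_det P).1 hu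
  refine ⟨P, P⁻¹, Matrix.mul_nonsing_inv P hd, Matrix.nonsing_inv_mul P hd, ?_⟩
  have h3 : b * P = P * Matrix.diagonal g := by
    ext i j
    have h4 := (hv j).apply_eq_smul
    rw [Matrix.toLin'_apply] at h4
    have h5 := congrFun h4 i
    rw [Matrix.mul_diagonal, Matrix.mul_apply]
    simp only [P, Matrix.transpose_apply, Matrix.of_apply]
    rw [mul_comm, ← smul_eq_mul, ← Pi.smul_apply, ← h5]
    rfl
  rw [Matrix.mul_assoc, h3, ← Matrix.mul_assoc, Matrix.nonsing_inv_mul P hd, Matrix.one_mul]

/-- TE7: simultaneous diagonalization of the blocks. -/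
theorem te7_pr {k : Type*} [Field k] [IsAlgClosed k] {R : Type*} [Fintype R] [DecidableEq R]
    {N : R → ℕ} (b : (a : R) → Matrix (Fin (N a)) (Fin (N a)) k)
    (β : (Σ a, Fin (N a)) → k) (hβ : PairDistinct β)
    (hb : (Matrix.blockDiagonal' b).charpoly = ∏ x, (Polynomial.X - Polynomial.C (β x))) :
    ∃ (P Q : (a : R) → Matrix (Fin (N a)) (Fin (N a)) k) (γ : (Σ a, Fin (N a)) → k),
      (∀ a, P a * Q a = 1) ∧ (∀ a, Q a * P a = 1) ∧
      (∀ a, Q a * b a * P a = Matrix.diagonal fun i => γ ⟨a, i⟩) ∧ PairDistinct γ := by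
  classical
  have he : ∀ a, ∃ g : Fin (N a) → k, (b a).charpoly = ∏ i, (X - C (g i)) := by
    intro a
    refine te7_enum _ (Matrix.charpoly_monic _) ?_
    rw [Matrix.charpoly_natDegree_eq_dim, Fintype.card_fin]
  choose g hg using he
  let γ : (Σ a, Fin (N a)) → k := fun x => g x.1 x.2
  have hprod : ∏ x, (X - C (γ x)) = ∏ x, (X - C (β x)) := by
    rw [← hb, te7_charpoly, Fintype.prod_sigma]
    refine Finset.prod_congr rfl fun a _ => ?_
    rw [hg a]
  have hβi : Function.Injective β := by
    intro x y hxy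
    rcases hβ x x x y (by rw [hxy]) with h | h
    · exact h.2
    · exact h.1
  have hms : Multiset.map γ (Finset.univ : Finset (Σ a, Fin (N a))).val =
      Multiset.map β (Finset.univ : Finset (Σ a, Fin (N a))).val := by
    have h0 : ∀ δ : (Σ a, Fin (N a)) → k, (∏ x, (X - C (δ x))).roots =
        Multiset.map δ (Finset.univ : Finset (Σ a, Fin (N a))).val := by
      intro δ
      have h4 : ∏ x, (X - C (δ x)) =
          (Multiset.map (fun a => X - C a) (Multiset.map δ
            (Finset.univ : Finset (Σ a, Fin (N a))).val)).prod := by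
        rw [Multiset.map_map]
        rfl
      rw [h4, Polynomial.roots_multiset_prod_X_sub_C]
    have h1 := congrArg Polynomial.roots hprod
    rwa [h0, h0] at h1
  have hnd : (Multiset.map γ (Finset.univ : Finset (Σ a, Fin (N a))).val).Nodup := by
    rw [hms]
    exact (Multiset.nodup_map_iff_of_injective hβi).2 Finset.univ.nodup
  have hγi : Function.Injective γ := by
    intro x y hxy
    exact Multiset.inj_on_of_nodup_map hnd x (Finset.mem_univ_val x) y (Finset.mem_univ_val y) hxy
  have hσ : ∀ x, ∃ y, γ x = β y := by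
    intro x
    have h1 : γ x ∈ Multiset.map β (Finset.univ : Finset (Σ a, Fin (N a))).val := by
      rw [← hms]
      exact Multiset.mem_map_of_mem γ (Finset.mem_univ_val x)
    obtain ⟨y, _, hy⟩ := Multiset.mem_map.1 h1
    exact ⟨y, hy.symm⟩
  choose σ hσ using hσ
  have hσi : Function.Injective σ := by
    intro x y hxy
    apply hγi
    rw [hσ x, hσ y, hxy]
  have hd : ∀ a, ∃ P Q : Matrix (Fin (N a)) (Fin (N a)) k, P * Q = 1 ∧ Q * P = 1 ∧
      Q * b a * P = Matrix.diagonal (g a) := by
    intro a
    refine te7_diag (b a) (g a) ?_ (hg a)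
    intro i j hij
    have h1 := hγi (a₁ := ⟨a, i⟩) (a₂ := ⟨a, j⟩) hij
    injection h1 with _ h2
  choose P Q h1 h2 h3 using hd
  refine ⟨P, Q, γ, h1, h2, h3, ?_⟩
  intro x y x' y' h
  rw [hσ x, hσ y, hσ x', hσ y'] at h
  rcases hβ _ _ _ _ h with h | h
  · exact Or.inl ⟨hσi h.1, hσi h.2⟩
  · exact Or.inr ⟨hσi h.1, hσi h.2⟩

end Pool.Agent.TE
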