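import Pool.Agent.Lib_helper7.TE.Defs

set_option autoImplicit false

namespace Pool.Agent.TE

open Pool.Agent.TBL Filter Topology

theorem te9_pr {k : Type*} [Field k] {n : Type*} [Fintype n] [DecidableEq n] (l : n → k)
    (hl : SumDistinct l) (S : Submodule k (Matrix n n k))
    (hS : ∀ Y ∈ S, Matrix.diagonal l * Y - Y * Matrix.diagonal l ∈ S) {Y : Matrix n n k}
    (hY : Y ∈ S) {x y : n} (hxy : x ≠ y) (h0 : Y x y ≠ 0) : Matrix.single x y 1 ∈ S := by
  classical
  have step : ∀ V : Finset k, (Matrix.of fun i j => Y i j * ∏ v ∈ V, (l i - l j - v)) ∈ S := by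
    intro V
    induction V using Finset.induction_on with
    | empty =>
      have : (Matrix.of fun i j => Y i j * ∏ v ∈ (∅ : Finset k), (l i - l j - v)) = Y := by
        ext i j; simp
      rw [this]; exact hY
    | insert v V hv ih =>
      have h1 := hS _ ih
      have h2 := S.sub_mem h1 (S.smul_mem v ih)
      convert h2 using 1
      ext i j
      simp only [Matrix.of_apply, Matrix.sub_apply, Matrix.diagonal_mul, Matrix.mul_diagonal,
        Matrix.smul_apply, smul_eq_mul, Finset.prod_insert hv]
      ring
  set V := (Finset.univ.image (fun q : n × n => l q.1 - l q.2)).erase (l x - l y) with hV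
  have key := step V
  have hc : Y x y * ∏ v ∈ V, (l x - l y - v) ≠ 0 := by
    refine mul_ne_zero h0 (Finset.prod_ne_zero_iff.2 fun v hv => ?_)
    rw [hV, Finset.mem_erase] at hv
    exact sub_ne_zero.2 hv.1.symm
  have heq : (Matrix.of fun i j => Y i j * ∏ v ∈ V, (l i - l j - v)) =
      (Y x y * ∏ v ∈ V, (l x - l y - v)) • Matrix.single x y 1 := by
    ext i j
    rw [Matrix.of_apply, Matrix.smul_apply, smul_eq_mul]
    by_cases hij : i = x ∧ j = y
    · obtain ⟨rfl, rfl⟩ := hij
      rw [Matrix.single_apply_same, mul_one]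
    · have h1 : Matrix.single x y (1 : k) i j = 0 := by
        rw [Matrix.single_apply]
        rw [if_neg]
        rintro ⟨h2, h3⟩
        exact hij ⟨h2.symm, h3.symm⟩
      rw [h1, mul_zero]
      have hne : l i - l j ≠ l x - l y := by
        intro h
        have h2 : l i + l y = l x + l j := by linear_combination h
        rcases hl i y x j h2 with ⟨h3, h4⟩ | ⟨h3, h4⟩
        · exact hij ⟨h3, h4.symm⟩
        · exact hxy h4.symm
      have hmem : l i - l j ∈ V := by
        rw [hV, Finset.mem_erase]
        exact ⟨hne, Finset.mem_image_of_mem (fun q : n × n => l q.1 - l q.2)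
          (Finset.mem_univ (i, j))⟩
      rw [Finset.prod_eq_zero hmem (sub_self _), mul_zero]
  rw [heq] at key
  have := S.smul_mem (Y x y * ∏ v ∈ V, (l x - l y - v))⁻¹ key
  rwa [smul_smul, inv_mul_cancel₀ hc, one_smul] at this

end Pool.Agent.TE
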