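import Pool.Agent.Lib_helper7.TE.T1
import Pool.Agent.Lib_helper7.TE.T2
import Pool.Agent.Lib_helper7.TE.T3
import Pool.Agent.Lib_helper7.TE.T4
import Pool.Agent.Lib_helper7.TE.T5
import Pool.Agent.Lib_helper7.TE.T6
import Pool.Agent.Lib_helper7.TE.T7
import Pool.Agent.Lib_helper7.TE.T8
import Pool.Agent.Lib_helper7.TE.T9
import Pool.Agent.Lib_helper7.TE.T10
import Pool.Agent.Lib_helper7.TE.T11
import Pool.Agent.Lib_helper7.TE.T12
import Pool.Agent.Lib_helper7.TE.T13

/-!
# The blocks of Theorem E (MP_c184fc_ag)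

Proofs by helper47 (1, 12), helper76 (2, 8), helper33 (3), helper16 (4, 9, 11), helper26 (5, 10),
helper22 (6, 13) and helper34 (7).
-/

set_option autoImplicit false

namespace Pool.Agent.TE

open Pool.Agent.TBL Filter Topology

/-- TE1: the derivative of a polynomial function in the direction `X M`. -/
theorem te1 {k : Type*} [NontriviallyNormedField k] {n : Type*} [Fintype n] [DecidableEq n]
    (M : Matrix n n k) (Φ : MvPolynomial (n × n) k) :
    ∃ L : Matrix n n k →L[k] k, HasFDerivAt (fun M' : Matrix n n k => ev M' Φ) L M ∧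
      ∀ X : Matrix n n k, L (X * M) = ev M (DX X Φ) :=
  te1_pr M Φ

/-- TE2: polynomials vanishing on the representation are stable under `DX`. -/
theorem te2 {k : Type*} [NontriviallyNormedField k] [IsUltrametricDist k] [CompleteSpace k]
    {n : Type*} [Fintype n] [DecidableEq n] {G : Type*} [Group G] (A : G →* Matrix n n k)
    (H : Subgroup G) {p : ℕ} (hp0 : (p : k) ≠ 0) (hp : ‖(p : k)‖ < 1) (hs : Small p A H)
    {X : Matrix n n k} (hX : X ∈ sp A H p) (Φ : MvPolynomial (n × n) k)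
    (hΦ : ∀ h ∈ H, ev (A h) Φ = 0) : ∀ h ∈ H, ev (A h) (DX X Φ) = 0 :=
  te2_pr A H hp0 hp hs hX Φ hΦ

/-- TE3: exponentiation of a matrix of square zero. -/
theorem te3 {k : Type*} [Field k] [CharZero k] {n : Type*} [Fintype n] [DecidableEq n]
    (M X : Matrix n n k) (hX : X * X = 0) (Φ : MvPolynomial (n × n) k)
    (h : ∀ r : ℕ, ev M ((DX X)^[r] Φ) = 0) (t : k) : ev ((1 + t • X) * M) Φ = 0 :=
  te3_pr M X hX Φ h t

/-- TE4: a diagonal matrix whose blocks have determinant one is a product of transvections. -/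
theorem te4 {k : Type*} [Field k] {n B : Type*} [Fintype n] [DecidableEq n] [DecidableEq B]
    (f : n → B) (C : Submonoid (Matrix n n k))
    (hC : ∀ x y, x ≠ y → f x = f y → ∀ t : k, 1 + t • Matrix.single x y 1 ∈ C) (d : n → k)
    (hd : ∀ b, ∏ x with f x = b, d x = 1) : Matrix.diagonal d ∈ C :=
  te4_pr f C hC d hd

/-- TE5: the Hankel determinant of the traces of powers of `M ⊗ M` tests the distinctness of the
products of the eigenvalues. -/
theorem te5 {k : Type*} [Field k] [CharZero k] {ι : Type*} [Fintype ι] (α : ι → k) :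
    (Matrix.of fun i j : Fin (Fintype.card ι * (Fintype.card ι + 1) / 2) =>
      (∑ x, α x ^ ((i : ℕ) + j)) ^ 2).det ≠ 0 ↔ PairDistinct α :=
  te5_pr α

/-- TE6: a generic diagonal element. -/
theorem te6 {k : Type*} [Field k] [CharZero k] {R : Type*} [Fintype R] (N : R → ℕ)
    (hN : ∀ a, 3 ≤ N a) :
    ∃ d : (Σ a, Fin (N a)) → k, (∀ a, ∏ i, d ⟨a, i⟩ = 1) ∧ PairDistinct d :=
  te6_pr N hN

/-- TE7: simultaneous diagonalization of the blocks. -/
theorem te7 {k : Type*} [Field k] [IsAlgClosed k] {R : Type*} [Fintype R] [DecidableEq R]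
    {N : R → ℕ} (b : (a : R) → Matrix (Fin (N a)) (Fin (N a)) k)
    (β : (Σ a, Fin (N a)) → k) (hβ : PairDistinct β)
    (hb : (Matrix.blockDiagonal' b).charpoly = ∏ x, (Polynomial.X - Polynomial.C (β x))) :
    ∃ (P Q : (a : R) → Matrix (Fin (N a)) (Fin (N a)) k) (γ : (Σ a, Fin (N a)) → k),
      (∀ a, P a * Q a = 1) ∧ (∀ a, Q a * P a = 1) ∧
      (∀ a, Q a * b a * P a = Matrix.diagonal fun i => γ ⟨a, i⟩) ∧ PairDistinct γ :=
  te7_pr b β hβ hb

/-- TE8: the logarithm of a diagonal matrix; additivity. -/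
theorem te8 {k : Type*} [NontriviallyNormedField k] [IsUltrametricDist k] [CompleteSpace k]
    {n : Type*} [Fintype n] [DecidableEq n] {p : ℕ} (hp0 : (p : k) ≠ 0)
    (hp : ‖(p : k)‖ < 1) (γ : n → k) (hγ : ∀ i, ‖γ i - 1‖ ≤ ‖(p : k)‖ ^ 2)
    (hγ' : PairDistinct γ) :
    ∃ l : n → k, SumDistinct l ∧
      Tendsto (fun m : ℕ => ((p : k) ^ m)⁻¹ • (Matrix.diagonal γ ^ p ^ m - 1)) atTop
        (𝓝 (Matrix.diagonal l)) :=
  te8_pr hp0 hp γ hγ hγ'

/-- TE9: root lines. -/
theorem te9 {k : Type*} [Field k] {n : Type*} [Fintype n] [DecidableEq n] (l : n → k)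
    (hl : SumDistinct l) (S : Submodule k (Matrix n n k))
    (hS : ∀ Y ∈ S, Matrix.diagonal l * Y - Y * Matrix.diagonal l ∈ S) {Y : Matrix n n k}
    (hY : Y ∈ S) {x y : n} (hxy : x ≠ y) (h0 : Y x y ≠ 0) : Matrix.single x y 1 ∈ S :=
  te9_pr l hl S hS hY hxy h0

/-- TE10: from root lines and irreducibility to everything. -/
theorem te10 {k : Type*} [Field k] [CharZero k] {R : Type*} [Fintype R] [DecidableEq R]
    {N : R → ℕ} {G : Type*} [Group G] (A : (a : R) → G →* Matrix (Fin (N a)) (Fin (N a)) k)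
    (l : (Σ a, Fin (N a)) → k) (hl : SumDistinct l)
    (S : Submodule k (Matrix (Σ a, Fin (N a)) (Σ a, Fin (N a)) k))
    (hlS : Matrix.diagonal l ∈ S)
    (hbr : ∀ X ∈ S, ∀ Y ∈ S, X * Y - Y * X ∈ S)
    (hconj : ∀ g, ∀ Y ∈ S, joint A g * Y * joint A g⁻¹ ∈ S)
    (hirr : ∀ a, ∀ W : Submodule k (Fin (N a) → k), (stab (A a) W).FiniteIndex →
      W = ⊥ ∨ W = ⊤)
    (x : (a : R) → Matrix (Fin (N a)) (Fin (N a)) k) (hx : ∀ a, (x a).trace = 0) :
    Matrix.blockDiagonal' x ∈ S :=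
  te10_pr A l hl S hlS hbr hconj hirr x hx

/-- TE11: the polynomial testing whether `c` is a product of `m` eigenvalues. -/
theorem te11 (k : Type*) [Field k] (N m : ℕ) :
    ∃ Φ : MvPolynomial ((Fin N ⊕ Unit) × (Fin N ⊕ Unit)) k,
      ∀ (M : Matrix (Fin N) (Fin N) k) (c : k) (α : Fin N → k),
        M.charpoly = ∏ i, (Polynomial.X - Polynomial.C (α i)) →
        ev (Matrix.fromBlocks M 0 0 (Matrix.of fun _ _ => c)) Φ =
          ∏ S ∈ Finset.univ.powersetCard m, (c - ∏ i ∈ S, α i) :=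
  te11_pr k N m

/-- TE12: the Hankel determinant is a polynomial. -/
theorem te12 (k : Type*) [Field k] (n : Type*) [Fintype n] [DecidableEq n] (m : ℕ) :
    ∃ Φ : MvPolynomial (n × n) k, ∀ M : Matrix n n k,
      ev M Φ = (Matrix.of fun i j : Fin m => (M ^ ((i : ℕ) + j)).trace ^ 2).det :=
  te12_pr k n m

/-- TE13: invariant subspaces, determinants and roots. -/
theorem te13 {E k : Type*} [Field E] [IsAlgClosed E] [Field k] {N : ℕ} (il : E →+* k)
    (M : Matrix (Fin N) (Fin N) k) (α : Fin N → E)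
    (hM : M.charpoly = (∏ i, (Polynomial.X - Polynomial.C (α i))).map il)
    (U : Submodule k (Fin N → k)) (hU : ∀ u ∈ U, Matrix.toLin' M u ∈ U) (e : E)
    (he : LinearMap.det ((Matrix.toLin' M).restrict hU) = il e) :
    ∃ S ∈ Finset.univ.powersetCard (Module.finrank k U), e = ∏ i ∈ S, α i :=
  te13_pr il M α hM U hU e he

end Pool.Agent.TE
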