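import Pool.Agent.Lib_helper7.TE.Zar
import Pool.Agent.Lib_helper7.TB.Main

/-!
# Tools: projections of logarithms, Frobenius density, small normal subgroups
(MP_c184fc_ag, Theorem E)
-/

set_option autoImplicit false

namespace Pool.Agent.TE

open NumberField Pool.Agent.TT Pool.Agent.TB Pool.Agent.TBL Filter Topology

section

variable {k : Type*} [NontriviallyNormedField k] [IsUltrametricDist k] [CompleteSpace k]

attribute [local instance] matRing matAlg matUltra matComplete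

theorem norm_iff {n : Type*} [Fintype n] [DecidableEq n] (M : Matrix n n k) {r : ℝ} (hr : 0 ≤ r) :
    ‖M‖ ≤ r ↔ ∀ i j, ‖M i j‖ ≤ r := by
  letI : NormedAddCommGroup (Matrix n n k) := Matrix.normedAddCommGroup
  exact Matrix.norm_le_iff hr

theorem small_norm {n : Type*} [Fintype n] [DecidableEq n] {G : Type*} [Group G] {p : ℕ}
    {A : G →* Matrix n n k} {H : Subgroup G} (hs : Small p A H) :
    ∀ h ∈ H, ‖A h - 1‖ ≤ ‖(p : k)‖ ^ 2 := fun h hh =>
  (norm_iff _ (by positivity)).2 (hs h hh)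

/-- Linear maps compatible with the powers are compatible with the logarithms. -/
theorem lg_map {n m : Type*} [Fintype n] [DecidableEq n] [Fintype m] [DecidableEq m] {p : ℕ}
    (hp0 : (p : k) ≠ 0) (hp : ‖(p : k)‖ < 1) (L : Matrix n n k →ₗ[k] Matrix m m k)
    {a : Matrix n n k} {b : Matrix m m k} (ha : ∀ i j, ‖(a - 1) i j‖ ≤ ‖(p : k)‖ ^ 2)
    (hb : ∀ i j, ‖(b - 1) i j‖ ≤ ‖(p : k)‖ ^ 2) (hL : ∀ j : ℕ, L (a ^ j - 1) = b ^ j - 1) :
    L (lg k p a) = lg k p b := by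
  have h1 := tendsto_dq (k := k) hp0 hp ((norm_iff (a - 1) (by positivity)).2 ha)
  have h2 := tendsto_dq (k := k) hp0 hp ((norm_iff (b - 1) (by positivity)).2 hb)
  have hc : Continuous L := L.continuous_of_finiteDimensional
  have h3 : Tendsto (fun m => L (dq k p a m)) atTop (𝓝 (L (lg k p a))) :=
    (hc.tendsto _).comp h1
  refine tendsto_nhds_unique h3 (h2.congr fun m => ?_)
  rw [dq, dq, map_smul, hL]

theorem sp_mono {n : Type*} [Fintype n] [DecidableEq n] {G : Type*} [Group G]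
    (A : G →* Matrix n n k) {H H' : Subgroup G} (h : H ≤ H') (p : ℕ) : sp A H p ≤ sp A H' p :=
  Submodule.span_mono fun _ ⟨g, hg, hx⟩ => ⟨g, h hg, hx⟩

end

section

variable {K : Type} [Field K] [NumberField K] [Algebra K Qbar]

/-- Frobenius elements are dense (a closed set containing their inverses contains everything). -/
theorem frob_closed (H : Subgroup (Qbar ≃ₐ[K] Qbar)) (hH : IsOpen (H : Set (Qbar ≃ₐ[K] Qbar)))
    (U : Set (Qbar ≃ₐ[K] Qbar)) (hU : IsOpen U) (B : Finset ℕ)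
    (hF : ∀ q : ℕ, q.Prime → q ∉ B → ∀ Q : Ideal (𝓞 Qbar), Q.IsPrime → (q : 𝓞 Qbar) ∈ Q →
      ∀ σ : Qbar ≃ₐ[K] Qbar, (∀ x y : 𝓞 Qbar, (y : Qbar) = σ x → y - x ^ q ∈ Q) →
        σ⁻¹ ∈ H → σ⁻¹ ∉ U) (h : Qbar ≃ₐ[K] Qbar) (hh : h ∈ H) : h ∉ U := by
  intro hhU
  have h1 : (H : Set (Qbar ≃ₐ[K] Qbar)) ∩ U ∈ 𝓝 h := (hH.inter hU).mem_nhds ⟨hh, hhU⟩
  have h2 : (fun s : Qbar ≃ₐ[K] Qbar => s⁻¹) ⁻¹' ((H : Set (Qbar ≃ₐ[K] Qbar)) ∩ U) ∈ 𝓝 h⁻¹ := by
    refine (continuous_inv.continuousAt (x := h⁻¹)).preimage_mem_nhds ?_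
    rwa [inv_inv]
  obtain ⟨q, hq, hqB, Q, hQ, hqQ, σ, ⟨hσH, hσU⟩, hσ⟩ := fb_dense h⁻¹ _ h2 B
  exact hF q hq hqB Q hQ hqQ σ hσ hσH hσU

theorem isGalois_Qbar : IsGalois K Qbar := by
  have hac : Algebra.IsAlgebraic K Qbar := by
    have : Algebra.IsAlgebraic ℚ Qbar := AlgebraicClosure.isAlgebraic ℚ
    exact Algebra.IsAlgebraic.tower_top (K := ℚ) K
  have : Algebra.IsSeparable K Qbar := inferInstance
  have : Normal K Qbar := by
    have : IsAlgClosed Qbar := inferInstance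
    have : IsAlgClosure K Qbar := ⟨this, hac⟩
    exact IsAlgClosure.normal K Qbar
  exact {}

/-- Open normal subgroups in neighbourhoods of one. -/
theorem exists_normal (U : Set (Qbar ≃ₐ[K] Qbar)) (hU : IsOpen U) (h1 : 1 ∈ U) :
    ∃ N : Subgroup (Qbar ≃ₐ[K] Qbar), IsOpen (N : Set (Qbar ≃ₐ[K] Qbar)) ∧ N.Normal ∧
      ∀ h ∈ N, h ∈ U := by
  have := isGalois_Qbar (K := K)
  obtain ⟨N, hNU⟩ := ProfiniteGrp.exist_openNormalSubgroup_sub_open_nhds_of_one hU h1
  exact ⟨N.toSubgroup, N.isOpen', N.isNormal', fun h hh => hNU hh⟩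

theorem natCast_ne (p : ℕ) [Fact p.Prime] : (p : ℂ_[p]) ≠ 0 := by
  exact_mod_cast (Fact.out : p.Prime).ne_zero

theorem natCast_lt (p : ℕ) [Fact p.Prime] : ‖(p : ℂ_[p])‖ < 1 := by
  have h2 : (p : ℂ_[p]) = algebraMap ℚ_[p] ℂ_[p] (p : ℚ_[p]) := by simp
  rw [h2, norm_algebraMap', Padic.norm_p]
  exact inv_lt_one_of_one_lt₀ (by exact_mod_cast (Fact.out : p.Prime).one_lt)

/-- Small open subgroups for continuous representations. -/
theorem isOpen_small {G : Type*} [Group G] [TopologicalSpace G] {k : Type*}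
    [NontriviallyNormedField k] {n : Type*} [Fintype n] [DecidableEq n] (p : ℕ)
    (hp0 : (p : k) ≠ 0) (A : G →* Matrix n n k) (hA : Continuous A) :
    ∃ U : Set G, IsOpen U ∧ 1 ∈ U ∧ ∀ h ∈ U, ∀ i j, ‖(A h - 1) i j‖ ≤ ‖(p : k)‖ ^ 2 := by
  have hq : 0 < ‖(p : k)‖ ^ 2 := by positivity
  refine ⟨⋂ i, ⋂ j, {h | ‖(A h - 1) i j‖ < ‖(p : k)‖ ^ 2}, ?_, ?_, ?_⟩
  · refine isOpen_iInter_of_finite fun i => isOpen_iInter_of_finite fun j => ?_
    have : Continuous fun h => ‖(A h - 1) i j‖ :=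
      ((hA.sub continuous_const).matrix_elem i j).norm
    exact isOpen_lt this continuous_const
  · refine Set.mem_iInter.2 fun i => Set.mem_iInter.2 fun j => ?_
    show ‖(A 1 - 1) i j‖ < _
    rw [map_one, sub_self, Matrix.zero_apply, norm_zero]
    exact hq
  · intro h hh i j
    exact (Set.mem_iInter.1 (Set.mem_iInter.1 hh i) j).le

theorem joint_eq {G : Type*} [Group G] {k : Type*} [Field k] {R : Type*} [Fintype R]
    [DecidableEq R] {N : R → ℕ} (A : (a : R) → G →* Matrix (Fin (N a)) (Fin (N a)) k) (g : G) :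
    joint A g = Matrix.blockDiagonal' fun a => A a g := rfl

theorem joint_continuous {G : Type*} [Group G] [TopologicalSpace G] {k : Type*}
    [NontriviallyNormedField k] {R : Type*} [Fintype R] [DecidableEq R] {N : R → ℕ}
    (A : (a : R) → G →* Matrix (Fin (N a)) (Fin (N a)) k) (hA : ∀ a, Continuous (A a)) :
    Continuous (joint A) := by
  refine continuous_matrix fun i j => ?_
  obtain ⟨a, i⟩ := i
  obtain ⟨b, j⟩ := j
  by_cases h : a = b
  · subst h
    have : (fun g => joint A g ⟨a, i⟩ ⟨a, j⟩) = fun g => A a g i j := by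
      funext g
      rw [joint_eq, Matrix.blockDiagonal'_apply_eq]
    rw [this]
    exact (hA a).matrix_elem i j
  · have : (fun g => joint A g ⟨a, i⟩ ⟨b, j⟩) = fun _ => (0 : k) := by
      funext g
      rw [joint_eq, Matrix.blockDiagonal'_apply_ne _ _ _ h]
    rw [this]
    exact continuous_const

end

end Pool.Agent.TE
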