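import Pool.Agent.Lib_helper7.TE.Wanted

/-!
# Lemma Z: polynomials vanishing on a `p`-adic representation (MP_c184fc_ag, Theorem E)
-/

set_option autoImplicit false

namespace Pool.Agent.TE

open Pool.Agent.TBL Filter Topology

section

variable {k : Type*} [Field k] {n : Type*} [Fintype n] [DecidableEq n]

/-- Left translation of polynomials. -/
noncomputable def lt (Y : Matrix n n k) (Φ : MvPolynomial (n × n) k) : MvPolynomial (n × n) k :=
  MvPolynomial.aeval (fun ij : n × n => ∑ l, MvPolynomial.C (Y ij.1 l) * MvPolynomial.X (l, ij.2)) Φ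

theorem ev_lt (Y M : Matrix n n k) (Φ : MvPolynomial (n × n) k) :
    ev M (lt Y Φ) = ev (Y * M) Φ := by
  rw [ev, ev, lt, MvPolynomial.aeval_def, ← MvPolynomial.coe_eval₂Hom, ← RingHom.comp_apply]
  congr 1
  refine MvPolynomial.ringHom_ext ?_ ?_
  · intro r
    simp
  · rintro ⟨i, j⟩
    simp [Matrix.mul_apply]

end

section

variable {k : Type*} [NontriviallyNormedField k] [IsUltrametricDist k] [CompleteSpace k]
  [CharZero k] {n : Type*} [Fintype n] [DecidableEq n] {G : Type*} [Group G]

/-- The monoid generated by the one-parameter groups of square zero elements of the Lie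
algebra. -/
noncomputable def cl (A : G →* Matrix n n k) (H : Subgroup G) (p : ℕ) :
    Submonoid (Matrix n n k) :=
  Submonoid.closure {Y | ∃ X ∈ sp A H p, X * X = 0 ∧ ∃ t : k, Y = 1 + t • X}

theorem lemmaZ (A : G →* Matrix n n k) (H : Subgroup G) {p : ℕ} (hp0 : (p : k) ≠ 0)
    (hp : ‖(p : k)‖ < 1) (hs : Small p A H) {g : Matrix n n k} (hg : g ∈ cl A H p)
    (Φ : MvPolynomial (n × n) k) (hΦ : ∀ h ∈ H, ev (A h) Φ = 0) :
    ∀ h ∈ H, ev (g * A h) Φ = 0 := by
  induction hg using Submonoid.closure_induction generalizing Φ with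
  | mem Y hY =>
    obtain ⟨X, hX, hX2, t, rfl⟩ := hY
    intro h hh
    refine te3 (A h) X hX2 Φ (fun r => ?_) t
    have h1 : ∀ r : ℕ, ∀ h ∈ H, ev (A h) ((DX X)^[r] Φ) = 0 := by
      intro r
      induction r with
      | zero => exact hΦ
      | succ r ih =>
        rw [Function.iterate_succ_apply']
        exact te2 A H hp0 hp hs hX _ ih
    exact h1 r h hh
  | one =>
    intro h hh
    rw [one_mul]
    exact hΦ h hh
  | mul Y Y' _ _ hY hY' =>
    intro h hh
    have h1 : ∀ h ∈ H, ev (A h) (lt Y Φ) = 0 := by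
      intro h hh
      rw [ev_lt]
      exact hY Φ hΦ h hh
    have h2 := hY' _ h1 h hh
    rwa [ev_lt, ← mul_assoc] at h2

end

end Pool.Agent.TE
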