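import Pool.Agent.Lib_helper7.TB.Lie

/-!
# Zariski density by logarithms: definitions (MP_c184fc_ag, Theorem E)
-/

set_option autoImplicit false

namespace Pool.Agent.TE

open Pool.Agent.TBL

section

variable {k : Type*} [Field k] {n : Type*} [Fintype n] [DecidableEq n]

/-- The value of a polynomial in the entries of a matrix. -/
noncomputable def ev (M : Matrix n n k) (Φ : MvPolynomial (n × n) k) : k :=
  MvPolynomial.eval (fun ij => M ij.1 ij.2) Φ

/-- The derivation `Φ ↦ (M ↦ dΦ_M (X M))`. -/
noncomputable def DX (X : Matrix n n k) :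
    Derivation k (MvPolynomial (n × n) k) (MvPolynomial (n × n) k) :=
  MvPolynomial.mkDerivation k fun ij => ∑ l, MvPolynomial.C (X ij.1 l) * MvPolynomial.X (l, ij.2)

/-- The products `α x * α y`, for unordered pairs `x, y`, are pairwise different. -/
def PairDistinct {ι : Type*} (α : ι → k) : Prop :=
  ∀ x y x' y', α x * α y = α x' * α y' → (x = x' ∧ y = y') ∨ (x = y' ∧ y = x')

/-- The sums `l x + l y`, for unordered pairs `x, y`, are pairwise different. -/
def SumDistinct {ι : Type*} (l : ι → k) : Prop :=
  ∀ x y x' y', l x + l y = l x' + l y' → (x = x' ∧ y = y') ∨ (x = y' ∧ y = x')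

/-- The entries of the matrices `A h - 1`, `h ∈ H`, are at most `‖p‖ ^ 2`. -/
def Small {k : Type*} [NormedField k] {n : Type*} [DecidableEq n] [Fintype n] {G : Type*} [Group G]
    (p : ℕ) (A : G →* Matrix n n k) (H : Subgroup G) : Prop :=
  ∀ h ∈ H, ∀ i j, ‖(A h - 1) i j‖ ≤ ‖(p : k)‖ ^ 2

/-- The stabilizer of a subspace. -/
def stab {G : Type*} [Group G] (A : G →* Matrix n n k) (W : Submodule k (n → k)) :
    Subgroup G where
  carrier := {g | ∀ w, (A g).mulVec w ∈ W ↔ w ∈ W}
  mul_mem' {g h} hg hh w := by
    rw [map_mul, ← Matrix.mulVec_mulVec, hg, hh]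
  one_mem' w := by rw [map_one, Matrix.one_mulVec]
  inv_mem' {g} hg w := by
    rw [← hg, Matrix.mulVec_mulVec, ← map_mul, mul_inv_cancel, map_one, Matrix.one_mulVec]

/-- The block diagonal representation. -/
noncomputable def joint {R : Type*} [Fintype R] [DecidableEq R] {G : Type*} [Group G] {N : R → ℕ}
    (A : (a : R) → G →* Matrix (Fin (N a)) (Fin (N a)) k) :
    G →* Matrix (Σ a, Fin (N a)) (Σ a, Fin (N a)) k where
  toFun g := Matrix.blockDiagonal' fun a => A a g
  map_one' := by
    have : (fun a => A a 1) = 1 := by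
      funext a
      rw [map_one]
      rfl
    rw [this, Matrix.blockDiagonal'_one]
  map_mul' g h := by
    rw [← Matrix.blockDiagonal'_mul]
    congr 1
    funext a
    rw [map_mul]

end

/-- The span of the logarithms of the representation on `H` contains all block diagonal matrices
whose blocks have trace zero. -/
def Big {k : Type*} [NontriviallyNormedField k] [IsUltrametricDist k] {R : Type*} [Fintype R]
    [DecidableEq R] {G : Type*} [Group G] (p : ℕ) {N : R → ℕ}
    (A : (a : R) → G →* Matrix (Fin (N a)) (Fin (N a)) k) (H : Subgroup G) : Prop :=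
  ∀ x : (a : R) → Matrix (Fin (N a)) (Fin (N a)) k, (∀ a, (x a).trace = 0) →
    Matrix.blockDiagonal' x ∈ sp (joint A) H p

end Pool.Agent.TE
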