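import Pool.Agent.Lib_helper7.TE.Defs

/-!
# TE, block TE1: the derivative of a polynomial function of the entries
-/

set_option autoImplicit false

namespace Pool.Agent.TE

open Pool.Agent.TBL Filter Topology

theorem te1_aux {k : Type*} [NontriviallyNormedField k] {n : Type*} [Fintype n] [DecidableEq n]
    (M : n → n → k) (Φ : MvPolynomial (n × n) k) :
    ∃ L : (n → n → k) →L[k] k,
      HasFDerivAt (fun M' : n → n → k => MvPolynomial.eval (fun ij : n × n => M' ij.1 ij.2) Φ) L M ∧
      ∀ X : Matrix n n k, L (X * (Matrix.of M)) = ev (Matrix.of M) (DX X Φ) := by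
  induction Φ using MvPolynomial.induction_on with
  | C a =>
    refine ⟨0, ?_, fun X => ?_⟩
    · simp only [MvPolynomial.eval_C]
      exact hasFDerivAt_const a M
    · have h1 : DX X (MvPolynomial.C a : MvPolynomial (n × n) k) = 0 :=
        (DX X).map_algebraMap a
      rw [h1]
      unfold ev
      rw [map_zero]
      rfl
  | add p q hp hq =>
    obtain ⟨L1, h1, h1'⟩ := hp
    obtain ⟨L2, h2, h2'⟩ := hq
    refine ⟨L1 + L2, ?_, fun X => ?_⟩
    · simp only [map_add]
      exact h1.add h2
    · have h3 : (L1 + L2) (X * Matrix.of M) = L1 (X * Matrix.of M) + L2 (X * Matrix.of M) := rfl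
      rw [h3, h1', h2', map_add]
      unfold ev
      rw [map_add]
  | mul_X p ij hp =>
    obtain ⟨L1, h1, h1'⟩ := hp
    have h2 : HasFDerivAt (fun M' : n → n → k => M' ij.1 ij.2)
        ((ContinuousLinearMap.proj (R := k) (φ := fun _ : n => k) ij.2).comp
          (ContinuousLinearMap.proj (R := k) (φ := fun _ : n => n → k) ij.1)) M :=
      ((ContinuousLinearMap.proj (R := k) (φ := fun _ : n => k) ij.2).comp
          (ContinuousLinearMap.proj (R := k) (φ := fun _ : n => n → k) ij.1)).hasFDerivAt
    have h5 := h1.mul h2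
    have h6 : (fun M' : n → n → k => MvPolynomial.eval (fun ij : n × n => M' ij.1 ij.2)
        (p * MvPolynomial.X ij)) = fun M' : n → n → k =>
          MvPolynomial.eval (fun ij : n × n => M' ij.1 ij.2) p * M' ij.1 ij.2 := by
      funext M'
      rw [map_mul, MvPolynomial.eval_X]
    rw [h6]
    refine ⟨_, h5, fun X => ?_⟩
    · have h3 : DX X (p * MvPolynomial.X ij) = p * (∑ l, MvPolynomial.C (X ij.1 l) *
          MvPolynomial.X (l, ij.2)) + MvPolynomial.X ij * DX X p := by
        rw [Derivation.leibniz, smul_eq_mul, smul_eq_mul]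
        congr 2
        exact MvPolynomial.mkDerivation_X _ _ _
      rw [h3]
      have h4 : ev (Matrix.of M) (p * (∑ l, MvPolynomial.C (X ij.1 l) *
          MvPolynomial.X (l, ij.2)) + MvPolynomial.X ij * DX X p) =
          ev (Matrix.of M) p * (X * Matrix.of M) ij.1 ij.2 + M ij.1 ij.2 * ev (Matrix.of M) (DX X p) := by
        unfold ev
        rw [map_add, map_mul, map_mul, map_sum, MvPolynomial.eval_X, Matrix.mul_apply]
        simp only [map_mul, MvPolynomial.eval_C, MvPolynomial.eval_X]
        rfl
      rw [h4, ← h1']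
      rfl

/-- TE1: the derivative of a polynomial function in the direction `X M`. -/
theorem te1_pr {k : Type*} [NontriviallyNormedField k] {n : Type*} [Fintype n] [DecidableEq n]
    (M : Matrix n n k) (Φ : MvPolynomial (n × n) k) :
    ∃ L : Matrix n n k →L[k] k, HasFDerivAt (fun M' : Matrix n n k => ev M' Φ) L M ∧
      ∀ X : Matrix n n k, L (X * M) = ev M (DX X Φ) :=
  te1_aux M Φ

end Pool.Agent.TE
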